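import Mathlib

/-!
# Projective space `ℙⁿ` over a field
-/

universe u

open AlgebraicGeometry CategoryTheory

namespace ClusterLift

attribute [local instance] MvPolynomial.gradedAlgebra

/-- The grading of `k[X₀, …, Xₙ]` by the degree. -/
noncomputable abbrev grading (n : ℕ) (k : Type u) [Field k] :
    ℕ → Submodule k (MvPolynomial (Fin (n + 1)) k) :=
  MvPolynomial.homogeneousSubmodule (Fin (n + 1)) k

/-- Projective space `ℙⁿ = Proj k[X₀, …, Xₙ]` over `k`. -/
noncomputable def PSpace (n : ℕ) (k : Type u) [Field k] : Scheme.{u} :=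
  Proj (grading n k)

/-- The structure morphism `ℙⁿ ⟶ Spec k`. -/
noncomputable def PSpace.toSpec (n : ℕ) (k : Type u) [Field k] :
    PSpace n k ⟶ Spec (CommRingCat.of k) :=
  Proj.toSpecZero (grading n k) ≫ Spec.map (CommRingCat.ofHom (algebraMap k (grading n k 0)))


/-- The generic point of projective space. -/
noncomputable def genPt (n : ℕ) (k : Type u) [Field k] : ProjectiveSpectrum (grading n k) where
  asHomogeneousIdeal := ⊥
  isPrime := by
    rw [HomogeneousIdeal.toIdeal_bot]
    exact Ideal.isPrime_bot
  not_irrelevant_le := by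
    intro h
    have h1 : (MvPolynomial.X 0 : MvPolynomial (Fin (n + 1)) k) ∈
        HomogeneousIdeal.irrelevant (grading n k) :=
      HomogeneousIdeal.mem_irrelevant_of_mem _ one_pos (MvPolynomial.isHomogeneous_X _ _)
    have h2 := h h1
    have h3 : (MvPolynomial.X 0 : MvPolynomial (Fin (n + 1)) k) ∈
        (⊥ : HomogeneousIdeal (grading n k)).toIdeal := h2
    rw [HomogeneousIdeal.toIdeal_bot, Ideal.mem_bot] at h3
    exact MvPolynomial.X_ne_zero _ h3

theorem genPt_mem (n : ℕ) (k : Type u) [Field k] (U : Set (ProjectiveSpectrum (grading n k)))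
    (hU : IsOpen U) (hne : U.Nonempty) : genPt n k ∈ U := by
  obtain ⟨x, hx⟩ := hne
  obtain ⟨V, ⟨f, rfl⟩, hxV, hVU⟩ :=
    (ProjectiveSpectrum.isTopologicalBasis_basic_opens (grading n k)).exists_subset_of_mem_open
      hx hU
  refine hVU ?_
  change f ∉ (⊥ : HomogeneousIdeal (grading n k)).toIdeal
  rw [HomogeneousIdeal.toIdeal_bot, Ideal.mem_bot]
  rintro rfl
  exact hxV (Ideal.zero_mem _)

instance PSpace.isIntegral (n : ℕ) (k : Type u) [Field k] : IsIntegral (PSpace n k) := by
  have hirr : IrreducibleSpace (ProjectiveSpectrum (grading n k)) := by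
    have : PreirreducibleSpace (ProjectiveSpectrum (grading n k)) := by
      refine ⟨fun U V hU hV hU' hV' => ?_⟩
      simp only [Set.univ_inter] at hU' hV' ⊢
      exact ⟨genPt n k, genPt_mem n k U hU hU', genPt_mem n k V hV hV'⟩
    exact { toNonempty := ⟨genPt n k⟩ }
  have hirr' : IrreducibleSpace (PSpace n k) := hirr
  have hred : ∀ x : PSpace n k, _root_.IsReduced ((PSpace n k).presheaf.stalk x) := by
    intro x
    let y : ProjectiveSpectrum (grading n k) := x
    have h1 : IsDomain (Localization.AtPrime y.asHomogeneousIdeal.toIdeal) :=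
      IsLocalization.isDomain_localization (Ideal.primeCompl_le_nonZeroDivisors _)
    have h2 : _root_.IsReduced (HomogeneousLocalization.AtPrime (grading n k)
        y.asHomogeneousIdeal.toIdeal) := by
      refine ⟨fun a ha => ?_⟩
      obtain ⟨m, hm⟩ := ha
      apply HomogeneousLocalization.val_injective
      have h3 : (a.val) ^ m = 0 := by
        rw [← HomogeneousLocalization.val_pow, hm, HomogeneousLocalization.val_zero]
      rw [HomogeneousLocalization.val_zero]
      exact eq_zero_of_pow_eq_zero h3
    exact isReduced_of_injective (Proj.stalkIso (grading n k) x).commRingCatIsoToRingEquiv.toRingHom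
      (Proj.stalkIso (grading n k) x).commRingCatIsoToRingEquiv.injective
  have : AlgebraicGeometry.IsReduced (PSpace n k) := isReduced_of_isReduced_stalk _
  exact isIntegral_of_irreducibleSpace_of_isReduced _

end ClusterLift
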