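import Mathlib
import Pool.Agent.Helper271.CT.Defs
import Pool.Agent.Helper271.CP.Space

/-!
# Crepant birational pairs

`X`, `X'`, `Y` are integral schemes over a field `k`.  All of them have the same function field, and
all divisors and forms are computed in the function field `K(X)` of `X`.
-/

universe u

open AlgebraicGeometry CategoryTheory

namespace ClusterLift

attribute [local instance] MvPolynomial.gradedAlgebra

section Orders

variable {Z : Scheme.{u}} [IsIntegral Z] {K : Type u} [Field K]

/-- `E` is a prime divisor of `Z`: a point whose local ring has dimension one. -/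
def IsPrimeDivisor (E : Z) : Prop := ringKrullDim (Z.presheaf.stalk E) = 1

/-- `ord_E(f) = m` for a rational function `f ∈ K`, where `K` is identified with the function field
of `Z` by `ι`: we have `f = r t ^ m` with a unit `r` of `𝒪_{Z,E}`, for every uniformiser `t`. -/
def HasOrder (ι : Z.functionField ≃+* K) (E : Z) (f : K) (m : ℤ) : Prop :=
  ∀ t : Z.presheaf.stalk E, Irreducible t →
    ∃ r : Z.presheaf.stalk E, IsUnit r ∧ f = ι (toK r) * ι (toK t) ^ m

/-- The form `dz₁ ∧ … ∧ dzₙ` for functions `z₁, …, zₙ` in the local ring `𝒪_{Z,E}`. -/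
noncomputable def stalkForm (k : Type u) [Field k] [Algebra k K] (ι : Z.functionField ≃+* K)
    {E : Z} {n : ℕ} (z : Fin n → Z.presheaf.stalk E) :
    ExteriorAlgebra K (KaehlerDifferential k K) :=
  wedge K fun i => KaehlerDifferential.D k K (ι (toK (z i)))

/-- `D = div_Z(ω)` for a rational `n`-form `ω` on `Z`, i.e. `D` is the canonical divisor of `Z`
given by `ω`: for every prime divisor `E` of `Z` and every uniformiser `t` of `𝒪_{Z,E}`, the module
generated by the forms `dz₁ ∧ … ∧ dzₙ`, `zᵢ ∈ 𝒪_{Z,E}` (the stalk of the canonical sheaf at `E`)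
is generated by `t ^ (-D(E)) ω`. -/
def IsDivisorOfForm (k : Type u) [Field k] [Algebra k K] (n : ℕ) (ι : Z.functionField ≃+* K)
    (ω : ExteriorAlgebra K (KaehlerDifferential k K)) (D : Z → ℤ) : Prop :=
  ∀ E : Z, IsPrimeDivisor E → ∀ t : Z.presheaf.stalk E, Irreducible t →
    (∀ z : Fin n → Z.presheaf.stalk E, ∃ r : Z.presheaf.stalk E,
      stalkForm k ι z = (ι (toK r) * ι (toK t) ^ (- D E)) • ω) ∧
    ∃ (z : Fin n → Z.presheaf.stalk E) (r : Z.presheaf.stalk E), IsUnit r ∧
      stalkForm k ι z = (ι (toK r) * ι (toK t) ^ (- D E)) • ω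

/-- `f` is a local equation at the point `z` of the divisor `N D`. -/
def IsLocalEquation (ι : Z.functionField ≃+* K) (D : Z → ℚ) (N : ℕ) (z : Z) (f : K) : Prop :=
  f ≠ 0 ∧ ∀ E : Z, IsPrimeDivisor E → E ⤳ z → ∃ m : ℤ, HasOrder ι E f m ∧ (m : ℚ) = N * D E

/-- The `ℚ`-divisor `D` on `Z` is `ℚ`-Cartier, and `D'` is its pull-back `π^* D` to `Y`: some
positive multiple `N D` is locally principal, and for every prime divisor `F` of `Y` and every
local equation `f` of `N D` at `π(F)`, the order of `f` at `F` is `N D'(F)`. -/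
def IsPullbackDivisor {Y : Scheme.{u}} [IsIntegral Y] (π : Y ⟶ Z) (ι : Z.functionField ≃+* K)
    (ι' : Y.functionField ≃+* K) (D : Z → ℚ) (D' : Y → ℚ) : Prop :=
  ∃ N : ℕ, 0 < N ∧ (∀ z : Z, ∃ f : K, IsLocalEquation ι D N z f) ∧
    ∀ F : Y, IsPrimeDivisor F → ∀ f : K, IsLocalEquation ι D N (π F) f →
      ∃ m : ℤ, HasOrder ι' F f m ∧ (m : ℚ) = N * D' F

end Orders

section Crepant

/-- The morphism `f : Y ⟶ X` induces the isomorphism `φ` of function fields; in particular `f` is
birational. -/
def InducesOnFunctionFields {X Y : Scheme.{u}} [IsIntegral X] [IsIntegral Y] (f : Y ⟶ X)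
    (φ : X.functionField ≃+* Y.functionField) : Prop :=
  Y.fromSpecStalk (genericPoint Y) ≫ f =
    Spec.map (CommRingCat.ofHom φ.toRingHom) ≫ X.fromSpecStalk (genericPoint X)

/-- A normal integral scheme `Y` with proper birational morphisms `π : Y ⟶ X` and
`π' : Y ⟶ X'` over `k`. -/
structure CommonModel {k : Type u} [Field k] {X X' : Scheme.{u}} [IsIntegral X] [IsIntegral X']
    (s : X ⟶ Spec (CommRingCat.of k)) (s' : X' ⟶ Spec (CommRingCat.of k)) where
  /-- the common model -/
  Y : Scheme.{u}
  isIntegral : IsIntegral Y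
  isNormal : ∀ y : Y, IsIntegrallyClosed (Y.presheaf.stalk y)
  /-- the morphism to `X` -/
  π : Y ⟶ X
  /-- the morphism to `X'` -/
  π' : Y ⟶ X'
  isProper : IsProper π
  isProper' : IsProper π'
  comm : π ≫ s = π' ≫ s'
  /-- the isomorphism of function fields induced by `π` -/
  φ : X.functionField ≃+* Y.functionField
  /-- the isomorphism of function fields induced by `π'` -/
  φ' : X'.functionField ≃+* Y.functionField
  induces : InducesOnFunctionFields π φ
  induces' : InducesOnFunctionFields π' φ'

variable {k : Type u} [Field k] {X X' : Scheme.{u}} [IsIntegral X] [IsIntegral X']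
  {s : X ⟶ Spec (CommRingCat.of k)} {s' : X' ⟶ Spec (CommRingCat.of k)}

attribute [instance] CommonModel.isIntegral

/-- The identification of `K(Y)` with `K(X)`. -/
noncomputable def CommonModel.ιY (M : CommonModel s s') : M.Y.functionField ≃+* X.functionField :=
  M.φ.symm

/-- The identification of `K(X')` with `K(X)`. -/
noncomputable def CommonModel.ι' (M : CommonModel s s') : X'.functionField ≃+* X.functionField :=
  M.φ'.trans M.φ.symm

/-- `π^*(K_X + B) = π'^*(K_{X'} + B')`, where the canonical divisors `K_X` and `K_{X'}` are given by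
one and the same nonzero rational `n`-form `ω = a dz₁ ∧ … ∧ dzₙ`. -/
def CommonModel.IsCrepant (M : CommonModel s s') (n : ℕ) (B : X → ℚ) (B' : X' → ℚ) : Prop :=
  letI := functionFieldAlgebra s
  ∃ (z : Fin n → X.functionField) (a : X.functionField)
    (ω : ExteriorAlgebra X.functionField (KaehlerDifferential k X.functionField))
    (KX : X → ℤ) (KX' : X' → ℤ) (D : M.Y → ℚ),
    ω = a • wedge X.functionField (fun i => KaehlerDifferential.D k X.functionField (z i)) ∧
    ω ≠ 0 ∧
    IsDivisorOfForm k n (RingEquiv.refl X.functionField) ω KX ∧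
    IsDivisorOfForm k n M.ι' ω KX' ∧
    IsPullbackDivisor M.π (RingEquiv.refl X.functionField) M.ιY (fun E => KX E + B E) D ∧
    IsPullbackDivisor M.π' M.ι' M.ιY (fun E => KX' E + B' E) D

/-- The `n`-dimensional pairs `(X, B)` and `(X', B')` over `k` are crepant birational equivalent. -/
def CrepantBirational (n : ℕ) (s : X ⟶ Spec (CommRingCat.of k)) (B : X → ℚ)
    (s' : X' ⟶ Spec (CommRingCat.of k)) (B' : X' → ℚ) : Prop :=
  ∃ M : CommonModel s s', M.IsCrepant n B B'

end Crepant

open Classical in
/-- The boundary `H₀ + … + Hₙ` of `ℙⁿ`: the coefficient of a prime divisor `E` is `1` if some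
coordinate `Xᵢ` vanishes at `E` and `0` otherwise. -/
noncomputable def hyperplanes (n : ℕ) (k : Type u) [Field k] (E : PSpace n k) : ℚ :=
  if ∃ i : Fin (n + 1), MvPolynomial.X i ∈ ProjectiveSpectrum.asHomogeneousIdeal E then 1 else 0

end ClusterLift
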