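import Mathlib
import Pool.Agent.Helper271.CT.Defs
import Pool.Agent.Helper271.CP.Defs

universe u

open AlgebraicGeometry CategoryTheory

namespace ClusterLift

attribute [local instance] MvPolynomial.gradedAlgebra

theorem algebraMap_compat {k : Type u} [Field k] {X X' Y : Scheme.{u}} [IsIntegral X]
    [IsIntegral X'] [IsIntegral Y] (s : X ⟶ Spec (CommRingCat.of k))
    (s' : X' ⟶ Spec (CommRingCat.of k)) (π : Y ⟶ X) (π' : Y ⟶ X') (hs : π ≫ s = π' ≫ s')
    (φ : X.functionField ≃+* Y.functionField) (φ' : X'.functionField ≃+* Y.functionField)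
    (hφ : InducesOnFunctionFields π φ) (hφ' : InducesOnFunctionFields π' φ') (c : k) :
    φ' ((functionFieldAlgebra s').algebraMap c) = φ ((functionFieldAlgebra s).algebraMap c) := by
  have key : ∀ {Z : Scheme.{u}} [IsIntegral Z] (t : Z ⟶ Spec (CommRingCat.of k)) (ρ : Y ⟶ Z)
      (ψ : Z.functionField ≃+* Y.functionField), InducesOnFunctionFields ρ ψ →
      Spec.map (Spec.preimage (Z.fromSpecStalk (genericPoint Z) ≫ t) ≫
        CommRingCat.ofHom ψ.toRingHom) = Y.fromSpecStalk (genericPoint Y) ≫ ρ ≫ t := by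
    intro Z _ t ρ ψ h
    have h' := congrArg (fun g => g ≫ t) h
    refine (Spec.map_comp _ _).trans ?_
    rw [Spec.map_preimage]
    refine (Category.assoc _ _ _).symm.trans (h'.symm.trans ?_)
    exact Category.assoc _ _ _
  have h1 := key s π φ hφ
  have h2 := key s' π' φ' hφ'
  rw [← hs, ← h1] at h2
  have h3 := Spec.map_injective h2
  have h4 := congrArg (fun g => g.hom c) h3
  exact h4

end ClusterLift
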