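import Mathlib
import Pool.Agent.Helper271.CT.Defs
import Pool.Agent.Helper271.CP.Defs

universe u

open AlgebraicGeometry CategoryTheory

namespace ClusterLift

attribute [local instance] MvPolynomial.gradedAlgebra

section PSaux
variable (n : ℕ) (k : Type u) [Field k]

/-- dehomogenization at the variable `i` -/
noncomputable def PSdehom (i : Fin (n + 1)) :
    MvPolynomial (Fin (n + 1)) k →ₐ[k] MvPolynomial (Fin n) k :=
  MvPolynomial.aeval (fun j => (i.insertNth (1 : MvPolynomial (Fin n) k)
    (fun l => MvPolynomial.X l) : Fin (n + 1) → MvPolynomial (Fin n) k) j)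

/-- the field of fractions -/
abbrev PSFr : Type u := FractionRing (MvPolynomial (Fin (n + 1)) k)

/-- the affine coordinates -/
noncomputable def PSt (i : Fin (n + 1)) (l : Fin n) : PSFr n k :=
  algebraMap _ _ (MvPolynomial.X (i.succAbove l) : MvPolynomial (Fin (n + 1)) k) /
    algebraMap _ _ (MvPolynomial.X i : MvPolynomial (Fin (n + 1)) k)

theorem PS_inj : Function.Injective (algebraMap (MvPolynomial (Fin (n + 1)) k) (PSFr n k)) :=
  IsFractionRing.injective _ _

theorem PS_X_ne (i : Fin (n + 1)) :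
    algebraMap (MvPolynomial (Fin (n + 1)) k) (PSFr n k) (MvPolynomial.X i) ≠ 0 := by
  intro h
  have := PS_inj n k (h.trans (map_zero _).symm)
  exact MvPolynomial.X_ne_zero i this

theorem PSdehom_self (i : Fin (n + 1)) : PSdehom n k i (MvPolynomial.X i) = 1 := by
  unfold PSdehom
  rw [MvPolynomial.aeval_X, Fin.insertNth_apply_same]

theorem PSdehom_succAbove (i : Fin (n + 1)) (l : Fin n) :
    PSdehom n k i (MvPolynomial.X (i.succAbove l)) = MvPolynomial.X l := by
  unfold PSdehom
  rw [MvPolynomial.aeval_X, Fin.insertNth_apply_succAbove]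

theorem PS_scale (i : Fin (n + 1)) (d : ℕ) (f : MvPolynomial (Fin (n + 1)) k)
    (hf : f.IsHomogeneous d) :
    MvPolynomial.aeval (fun j => algebraMap (MvPolynomial (Fin (n + 1)) k) (PSFr n k)
      (MvPolynomial.X j) / algebraMap (MvPolynomial (Fin (n + 1)) k) (PSFr n k)
      (MvPolynomial.X i)) f =
    algebraMap (MvPolynomial (Fin (n + 1)) k) (PSFr n k) f /
      (algebraMap (MvPolynomial (Fin (n + 1)) k) (PSFr n k) (MvPolynomial.X i)) ^ d := by
  have h1 : algebraMap (MvPolynomial (Fin (n + 1)) k) (PSFr n k) f =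
      MvPolynomial.aeval (fun j => algebraMap (MvPolynomial (Fin (n + 1)) k) (PSFr n k)
      (MvPolynomial.X j)) f := by
    have h2 : (IsScalarTower.toAlgHom k (MvPolynomial (Fin (n + 1)) k) (PSFr n k)) =
      MvPolynomial.aeval (fun j => algebraMap (MvPolynomial (Fin (n + 1)) k) (PSFr n k)
      (MvPolynomial.X j)) := by
      apply MvPolynomial.algHom_ext
      intro j
      simp
    rw [← h2]
    rfl
  rw [h1, MvPolynomial.aeval_def, MvPolynomial.aeval_def, MvPolynomial.eval₂_eq,
    MvPolynomial.eval₂_eq, Finset.sum_div]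
  refine Finset.sum_congr rfl (fun m hm => ?_)
  have hd : m.degree = d := by
    by_contra hne
    have := hf.coeff_eq_zero hne
    exact (MvPolynomial.mem_support_iff.1 hm) this
  rw [mul_div_assoc]
  congr 1
  have hX : (algebraMap (MvPolynomial (Fin (n + 1)) k) (PSFr n k) (MvPolynomial.X i)) ^ d =
      ∏ j ∈ m.support, (algebraMap (MvPolynomial (Fin (n + 1)) k) (PSFr n k)
        (MvPolynomial.X i)) ^ (m j) := by
    rw [Finset.prod_pow_eq_pow_sum, ← hd]
    rfl
  rw [hX, ← Finset.prod_div_distrib]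
  exact Finset.prod_congr rfl (fun j _ => div_pow _ _ _)

theorem PS_dehom_eq (i : Fin (n + 1)) (f : MvPolynomial (Fin (n + 1)) k) :
    MvPolynomial.aeval (fun j => algebraMap (MvPolynomial (Fin (n + 1)) k) (PSFr n k)
      (MvPolynomial.X j) / algebraMap (MvPolynomial (Fin (n + 1)) k) (PSFr n k)
      (MvPolynomial.X i)) f = MvPolynomial.aeval (PSt n k i) (PSdehom n k i f) := by
  have h : (MvPolynomial.aeval (fun j => algebraMap (MvPolynomial (Fin (n + 1)) k) (PSFr n k)
      (MvPolynomial.X j) / algebraMap (MvPolynomial (Fin (n + 1)) k) (PSFr n k)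
      (MvPolynomial.X i)) : MvPolynomial (Fin (n + 1)) k →ₐ[k] PSFr n k) =
      (MvPolynomial.aeval (PSt n k i)).comp (PSdehom n k i) := by
    apply MvPolynomial.algHom_ext
    intro j
    rw [AlgHom.comp_apply, MvPolynomial.aeval_X]
    by_cases hj : j = i
    · rw [hj, PSdehom_self, map_one, div_self (PS_X_ne n k i)]
    · obtain ⟨l, rfl⟩ := Fin.exists_succAbove_eq hj
      rw [PSdehom_succAbove, MvPolynomial.aeval_X]
      rfl
  rw [h]
  rfl

theorem PS_frac (i : Fin (n + 1)) (d : ℕ) (f : MvPolynomial (Fin (n + 1)) k)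
    (hf : f.IsHomogeneous d) :
    MvPolynomial.aeval (PSt n k i) (PSdehom n k i f) =
      algebraMap (MvPolynomial (Fin (n + 1)) k) (PSFr n k) f /
      (algebraMap (MvPolynomial (Fin (n + 1)) k) (PSFr n k) (MvPolynomial.X i)) ^ d := by
  rw [← PS_dehom_eq, PS_scale n k i d f hf]

theorem PS_hom (i : Fin (n + 1)) (P : MvPolynomial (Fin n) k) :
    ∃ (N : ℕ) (Q : MvPolynomial (Fin (n + 1)) k), Q.IsHomogeneous N ∧ PSdehom n k i Q = P := by
  have hXn : ∀ N : ℕ, (MvPolynomial.X i ^ N : MvPolynomial (Fin (n + 1)) k).IsHomogeneous N :=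
    fun N => MvPolynomial.isHomogeneous_X_pow i N
  induction P using MvPolynomial.induction_on with
  | C a =>
    refine ⟨0, MvPolynomial.C a, MvPolynomial.isHomogeneous_C _ _, ?_⟩
    have h := (PSdehom n k i).commutes a
    rw [MvPolynomial.algebraMap_eq, MvPolynomial.algebraMap_eq] at h
    exact h
  | add P1 P2 h1 h2 =>
    obtain ⟨N1, Q1, hQ1, e1⟩ := h1
    obtain ⟨N2, Q2, hQ2, e2⟩ := h2
    refine ⟨N1 + N2, MvPolynomial.X i ^ N2 * Q1 + MvPolynomial.X i ^ N1 * Q2, ?_, ?_⟩
    · refine MvPolynomial.IsHomogeneous.add ?_ ?_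
      · have := (hXn N2).mul hQ1
        rwa [add_comm N2 N1] at this
      · exact (hXn N1).mul hQ2
    · rw [map_add, map_mul, map_mul, map_pow, map_pow, PSdehom_self, one_pow, one_pow, one_mul,
        one_mul, e1, e2]
  | mul_X P l h =>
    obtain ⟨N, Q, hQ, e⟩ := h
    refine ⟨N + 1, Q * MvPolynomial.X (i.succAbove l), hQ.mul (MvPolynomial.isHomogeneous_X _ _), ?_⟩
    rw [map_mul, e, PSdehom_succAbove]

theorem PS_algInd (i : Fin (n + 1)) : AlgebraicIndependent k (PSt n k i) := by
  rw [algebraicIndependent_iff]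
  intro P hP
  obtain ⟨N, Q, hQ, e⟩ := PS_hom n k i P
  have h := PS_frac n k i N Q hQ
  rw [e, hP] at h
  have h2 : algebraMap (MvPolynomial (Fin (n + 1)) k) (PSFr n k) Q = 0 := by
    rcases div_eq_zero_iff.1 h.symm with h3 | h3
    · exact h3
    · exact absurd h3 (pow_ne_zero _ (PS_X_ne n k i))
  have h3 : Q = 0 := PS_inj n k (h2.trans (map_zero _).symm)
  rw [← e, h3, map_zero]

theorem PS_mem_bot (f : MvPolynomial (Fin (n + 1)) k) :
    f ∈ (⊥ : HomogeneousIdeal (grading n k)) ↔ f = 0 := by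
  rw [← HomogeneousIdeal.mem_iff]
  simp

/-- the generic point -/
noncomputable def PSpt : PSpace n k :=
  (⟨⊥, by
      have : (⊥ : HomogeneousIdeal (grading n k)).toIdeal = ⊥ := rfl
      rw [this]
      exact Ideal.isPrime_bot, by
      intro h
      have h1 : (MvPolynomial.X 0 : MvPolynomial (Fin (n + 1)) k) ∈
          HomogeneousIdeal.irrelevant (grading n k) := by
        rw [HomogeneousIdeal.mem_irrelevant_iff, GradedRing.proj_apply]
        exact DirectSum.decompose_of_mem_ne (grading n k)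
          (MvPolynomial.isHomogeneous_X k (0 : Fin (n + 1))) one_ne_zero
      have h2 := h h1
      have h3 : (MvPolynomial.X 0 : MvPolynomial (Fin (n + 1)) k) = 0 :=
        (PS_mem_bot n k _).1 h2
      exact MvPolynomial.X_ne_zero _ h3⟩ : ProjectiveSpectrum (grading n k))

theorem PSpt_mem (f : MvPolynomial (Fin (n + 1)) k) :
    f ∈ ProjectiveSpectrum.asHomogeneousIdeal (PSpt n k) ↔ f = 0 := by
  exact PS_mem_bot n k f

end PSaux

theorem PSpace_coords (n : ℕ) (k : Type u) [Field k] [IsIntegral (PSpace n k)]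
    {K : Type u} [Field K] [Algebra k K]
    (ι : (PSpace n k).functionField ≃+* K)
    (hι : ∀ c : k, ι ((functionFieldAlgebra (PSpace.toSpec n k)).algebraMap c) = algebraMap k K c)
    (hev : ∃ ev : (PSpace n k).functionField →+* FractionRing (MvPolynomial (Fin (n + 1)) k),
      (∀ c : k, ev ((functionFieldAlgebra (PSpace.toSpec n k)).algebraMap c) =
        algebraMap (MvPolynomial (Fin (n + 1)) k) _ (MvPolynomial.C c)) ∧
      (∀ (E : PSpace n k) (d : ℕ) (f g : MvPolynomial (Fin (n + 1)) k),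
        f.IsHomogeneous d → g.IsHomogeneous d → g ∉ ProjectiveSpectrum.asHomogeneousIdeal E →
        ∃ r : (PSpace n k).presheaf.stalk E,
          ev (toK r) = algebraMap _ _ f / algebraMap _ _ g ∧
          (IsUnit r ↔ f ∉ ProjectiveSpectrum.asHomogeneousIdeal E)) ∧
      (∀ (E : PSpace n k) (r : (PSpace n k).presheaf.stalk E),
        ∃ (d : ℕ) (f g : MvPolynomial (Fin (n + 1)) k), f.IsHomogeneous d ∧ g.IsHomogeneous d ∧
          g ∉ ProjectiveSpectrum.asHomogeneousIdeal E ∧
          ev (toK r) = algebraMap _ _ f / algebraMap _ _ g)) :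
    ∃ w : Fin (n + 1) → K, (∀ i, w i ≠ 0) ∧ w 0 = 1 ∧
      (∀ i : Fin (n + 1), AlgebraicIndependent k (fun l : Fin n => w (i.succAbove l) / w i)) ∧
      (∀ i : Fin (n + 1),
        IntermediateField.adjoin k (Set.range fun l : Fin n => w (i.succAbove l) / w i) = ⊤) ∧
      (∀ (E : PSpace n k) (c : k), ∃ r : (PSpace n k).presheaf.stalk E,
        ι (toK r) = algebraMap k K c) ∧
      (∀ (E : PSpace n k) (i : Fin (n + 1)),
        MvPolynomial.X i ∉ ProjectiveSpectrum.asHomogeneousIdeal E →
        (∀ l : Fin n, ∃ r : (PSpace n k).presheaf.stalk E,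
          ι (toK r) = w (i.succAbove l) / w i ∧
          (IsUnit r ↔ MvPolynomial.X (i.succAbove l) ∉ ProjectiveSpectrum.asHomogeneousIdeal E)) ∧
        (∀ r : (PSpace n k).presheaf.stalk E, ∃ (a b : MvPolynomial (Fin n) k)
          (v : (PSpace n k).presheaf.stalk E), IsUnit v ∧
          ι (toK v) = MvPolynomial.aeval (fun l : Fin n => w (i.succAbove l) / w i) b ∧
          ι (toK r) * ι (toK v) =
            MvPolynomial.aeval (fun l : Fin n => w (i.succAbove l) / w i) a)) := by
  obtain ⟨ev, hev1, hev2, hev3⟩ := hev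
  let φ0 : K →+* PSFr n k := ev.comp (ι.symm : K →+* (PSpace n k).functionField)
  have hφι : ∀ y, φ0 (ι y) = ev y := by
    intro y
    simp [φ0]
  let φ : K →ₐ[k] PSFr n k :=
    { φ0 with
      commutes' := fun c => by
        change φ0 (algebraMap k K c) = algebraMap k (PSFr n k) c
        rw [← hι, hφι, hev1]
        rfl }
  have hφinj : Function.Injective φ := φ0.injective
  have hφι' : ∀ y, φ (ι y) = ev y := hφι
  clear_value φ
  have hE0 : ∀ i, MvPolynomial.X i ∉ ProjectiveSpectrum.asHomogeneousIdeal (PSpt n k) :=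
    fun i h => MvPolynomial.X_ne_zero i ((PSpt_mem n k _).1 h)
  have hκ := fun j => hev2 (PSpt n k) 1 (MvPolynomial.X j) (MvPolynomial.X 0)
    (MvPolynomial.isHomogeneous_X _ _) (MvPolynomial.isHomogeneous_X _ _) (hE0 0)
  choose κ hκ1 hκ2 using hκ
  obtain ⟨w, hwdef⟩ : ∃ w : Fin (n + 1) → K, ∀ j, w j = ι (toK (κ j)) :=
    ⟨fun j => ι (toK (κ j)), fun j => rfl⟩
  have hw : ∀ j, φ (w j) = algebraMap (MvPolynomial (Fin (n + 1)) k) (PSFr n k)
      (MvPolynomial.X j) / algebraMap (MvPolynomial (Fin (n + 1)) k) (PSFr n k)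
      (MvPolynomial.X 0) := by
    intro j
    rw [hwdef, hφι']
    exact hκ1 j
  have hXne := PS_X_ne n k
  have hwt : ∀ i l, φ (w (i.succAbove l) / w i) = PSt n k i l := by
    intro i l
    rw [map_div₀, hw, hw]
    unfold PSt
    rw [div_div_div_cancel_right₀ (hXne 0)]
  have hφa : ∀ i (P : MvPolynomial (Fin n) k),
      φ (MvPolynomial.aeval (fun l => w (i.succAbove l) / w i) P) =
        MvPolynomial.aeval (PSt n k i) P := by
    intro i P
    rw [MvPolynomial.comp_aeval_apply]
    congr 2
    funext l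
    exact hwt i l
  have hone : ∀ E : PSpace n k, (1 : MvPolynomial (Fin (n + 1)) k) ∉
      ProjectiveSpectrum.asHomogeneousIdeal E := by
    intro E h
    exact (ProjectiveSpectrum.isPrime E).ne_top ((Ideal.eq_top_iff_one _).2 h)
  have hpow : ∀ (E : PSpace n k) (i : Fin (n + 1)) (d : ℕ),
      (MvPolynomial.X i : MvPolynomial (Fin (n + 1)) k) ∉
      ProjectiveSpectrum.asHomogeneousIdeal E → (MvPolynomial.X i ^ d :
        MvPolynomial (Fin (n + 1)) k) ∉ ProjectiveSpectrum.asHomogeneousIdeal E := by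
    intro E i d h h'
    exact h ((ProjectiveSpectrum.isPrime E).mem_of_pow_mem d h')
  have hzero : ∀ (E : PSpace n k) (g : MvPolynomial (Fin (n + 1)) k), g ∉
      ProjectiveSpectrum.asHomogeneousIdeal E → algebraMap (MvPolynomial (Fin (n + 1)) k)
        (PSFr n k) g ≠ 0 := by
    intro E g hg h
    have h2 : g = 0 := PS_inj n k (h.trans (map_zero _).symm)
    apply hg
    rw [h2]
    exact (ProjectiveSpectrum.asHomogeneousIdeal E).toIdeal.zero_mem
  have hfr : ∀ (i : Fin (n + 1)) (d : ℕ) (f g : MvPolynomial (Fin (n + 1)) k),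
      f.IsHomogeneous d → g.IsHomogeneous d →
      algebraMap (MvPolynomial (Fin (n + 1)) k) (PSFr n k) f /
        algebraMap (MvPolynomial (Fin (n + 1)) k) (PSFr n k) g =
      MvPolynomial.aeval (PSt n k i) (PSdehom n k i f) /
        MvPolynomial.aeval (PSt n k i) (PSdehom n k i g) := by
    intro i d f g hf hg
    rw [PS_frac n k i d f hf, PS_frac n k i d g hg,
      div_div_div_cancel_right₀ (pow_ne_zero _ (hXne i))]
  refine ⟨w, ?_, ?_, ?_, ?_, ?_, ?_⟩
  · intro i h
    have h1 := hw i
    rw [h, map_zero] at h1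
    exact div_ne_zero (hXne i) (hXne 0) h1.symm
  · apply hφinj
    rw [hw 0, map_one, div_self (hXne 0)]
  · intro i
    apply AlgebraicIndependent.of_comp φ
    have h : (φ ∘ fun l : Fin n => w (i.succAbove l) / w i) = PSt n k i := by
      funext l
      exact hwt i l
    rw [h]
    exact PS_algInd n k i
  · intro i
    rw [eq_top_iff]
    intro x _
    obtain ⟨y, rfl⟩ := ι.surjective x
    have hmem : ∀ P : MvPolynomial (Fin n) k,
        MvPolynomial.aeval (fun l => w (i.succAbove l) / w i) P ∈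
        IntermediateField.adjoin k (Set.range fun l : Fin n => w (i.succAbove l) / w i) := by
      intro P
      apply IntermediateField.algebra_adjoin_le_adjoin
      rw [Algebra.adjoin_range_eq_range_aeval]
      exact ⟨P, rfl⟩
    have hkey : ∀ r : (PSpace n k).presheaf.stalk (PSpt n k), ι (toK r) ∈
        IntermediateField.adjoin k (Set.range fun l : Fin n => w (i.succAbove l) / w i) := by
      intro r
      obtain ⟨d, f, g, hf, hg, hgE, e⟩ := hev3 _ r
      have h : ι (toK r) = MvPolynomial.aeval (fun l => w (i.succAbove l) / w i)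
          (PSdehom n k i f) / MvPolynomial.aeval (fun l => w (i.succAbove l) / w i)
          (PSdehom n k i g) := by
        apply hφinj
        rw [hφι', map_div₀, hφa, hφa, ← hfr i d f g hf hg]
        exact e
      rw [h]
      exact div_mem (hmem _) (hmem _)
    obtain ⟨a, b, hb, hab⟩ := IsFractionRing.div_surjective
      (A := (PSpace n k).presheaf.stalk (PSpt n k)) y
    rw [← hab, map_div₀]
    exact div_mem (hkey a) (hkey b)
  · intro E c
    obtain ⟨r, hr, _⟩ := hev2 E 0 (MvPolynomial.C c) 1 (MvPolynomial.isHomogeneous_C _ _)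
      (MvPolynomial.isHomogeneous_one _ _) (hone E)
    refine ⟨r, ?_⟩
    apply hφinj
    rw [hφι', hr, map_one, div_one, AlgHom.commutes]
    rfl
  · intro E i hi
    refine ⟨?_, ?_⟩
    · intro l
      obtain ⟨r, hr, hr2⟩ := hev2 E 1 (MvPolynomial.X (i.succAbove l)) (MvPolynomial.X i)
        (MvPolynomial.isHomogeneous_X _ _) (MvPolynomial.isHomogeneous_X _ _) hi
      refine ⟨r, ?_, hr2⟩
      apply hφinj
      rw [hφι', hwt]
      exact hr
    · intro r
      obtain ⟨d, f, g, hf, hg, hgE, e⟩ := hev3 E r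
      obtain ⟨v, hv, hv2⟩ := hev2 E d g (MvPolynomial.X i ^ d) hg
        (MvPolynomial.isHomogeneous_X_pow i d) (hpow E i d hi)
      refine ⟨PSdehom n k i f, PSdehom n k i g, v, hv2.2 hgE, ?_, ?_⟩
      · apply hφinj
        rw [hφι', hφa, PS_frac n k i d g hg, ← map_pow]
        exact hv
      · apply hφinj
        have hv' : ev (toK v) = algebraMap (MvPolynomial (Fin (n + 1)) k) (PSFr n k) g /
          (algebraMap (MvPolynomial (Fin (n + 1)) k) (PSFr n k) (MvPolynomial.X i)) ^ d := by
          rw [← map_pow]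
          exact hv
        have e' : ev (toK r) = algebraMap (MvPolynomial (Fin (n + 1)) k) (PSFr n k) f /
          algebraMap (MvPolynomial (Fin (n + 1)) k) (PSFr n k) g := e
        rw [map_mul, hφι', hφι', hφa, PS_frac n k i d f hf, hv', e',
          div_mul_div_cancel₀ (hzero E g hgE)]

end ClusterLift
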