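import Mathlib
import Pool.Agent.Helper271.CT.Defs
import Pool.Agent.Helper271.CP.Defs

universe u

open AlgebraicGeometry CategoryTheory

namespace ClusterLift

attribute [local instance] MvPolynomial.gradedAlgebra

section gen

variable {A : Type u} [CommRing A] [IsDomain A] {σ : Type*} [SetLike σ A] [AddSubgroupClass σ A]
  (𝒜 : ℕ → σ) [GradedRing 𝒜]

/-- evaluation in the fraction field -/
noncomputable def cpj2_evAt (x : ProjectiveSpectrum 𝒜) :
    HomogeneousLocalization.AtPrime 𝒜 x.asHomogeneousIdeal.toIdeal →+* FractionRing A :=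
  (IsLocalization.lift (M := x.asHomogeneousIdeal.toIdeal.primeCompl)
    (S := Localization x.asHomogeneousIdeal.toIdeal.primeCompl) (g := algebraMap A (FractionRing A))
    (fun y => by
      have h : (y : A) ≠ 0 := fun h => y.2 (by rw [h]; exact Ideal.zero_mem _)
      exact isUnit_iff_ne_zero.mpr
        ((map_ne_zero_iff _ (IsFractionRing.injective A (FractionRing A))).mpr h))).comp
    (algebraMap _ _)

theorem cpj2_evAt_mk (x : ProjectiveSpectrum 𝒜)
    (c : HomogeneousLocalization.NumDenSameDeg 𝒜 x.asHomogeneousIdeal.toIdeal.primeCompl) :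
    cpj2_evAt 𝒜 x (.mk c) = algebraMap A (FractionRing A) (c.num : A) /
      algebraMap A (FractionRing A) (c.den : A) := by
  have h : (c.den : A) ≠ 0 := fun h => c.den_mem (by rw [h]; exact Ideal.zero_mem _)
  have h' : algebraMap A (FractionRing A) (c.den : A) ≠ 0 :=
    (map_ne_zero_iff _ (IsFractionRing.injective A (FractionRing A))).mpr h
  unfold cpj2_evAt
  rw [RingHom.comp_apply, HomogeneousLocalization.algebraMap_apply,
    HomogeneousLocalization.val_mk, Localization.mk_eq_mk', IsLocalization.lift_mk'_spec]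
  field_simp

/-- evaluation of germs -/
noncomputable def cpj2_evS (x : ProjectiveSpectrum 𝒜) :
    (Proj 𝒜).presheaf.stalk x →+* FractionRing A :=
  (cpj2_evAt 𝒜 x).comp (Proj.stalkIso 𝒜 x).hom.hom

theorem cpj2_evS_germ (x : Proj 𝒜) (U : (Proj 𝒜).Opens) (hx : x ∈ U) (s : Γ(Proj 𝒜, U)) :
    cpj2_evS 𝒜 x ((Proj 𝒜).presheaf.germ U x hx s) = cpj2_evAt 𝒜 x (s.1 ⟨x, hx⟩) := by
  unfold cpj2_evS
  rw [RingHom.comp_apply]
  congr 1
  exact Proj.stalkIso'_germ 𝒜 U x hx s

theorem cpj2_evS_compat (x y : Proj 𝒜) (h : y ⤳ x) (r : (Proj 𝒜).presheaf.stalk x) :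
    cpj2_evS 𝒜 y ((Proj 𝒜).presheaf.stalkSpecializes h r) = cpj2_evS 𝒜 x r := by
  obtain ⟨U, hxU, s, rfl⟩ := (Proj 𝒜).presheaf.exists_germ_eq r
  have e1 : (Proj 𝒜).presheaf.stalkSpecializes h ((Proj 𝒜).presheaf.germ U x hxU s) =
      (Proj 𝒜).presheaf.germ U y (h.mem_open U.isOpen hxU) s := by
    exact TopCat.Presheaf.germ_stalkSpecializes_apply _ hxU h s
  rw [e1, cpj2_evS_germ, cpj2_evS_germ]
  obtain ⟨V, hxV, i, m, a, b, hb, e⟩ := s.2 ⟨x, hxU⟩
  have hyV : y ∈ V := h.mem_open V.isOpen hxV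
  have ex := e ⟨x, hxV⟩
  have ey := e ⟨y, hyV⟩
  have ex' : s.1 ⟨x, hxU⟩ = _ := ex
  have ey' : s.1 ⟨y, h.mem_open U.isOpen hxU⟩ = _ := ey
  rw [ex', ey']
  have k1 := cpj2_evAt_mk 𝒜 y ⟨m, a, b, hb ⟨y, hyV⟩⟩
  have k2 := cpj2_evAt_mk 𝒜 x ⟨m, a, b, hb ⟨x, hxV⟩⟩
  exact k1.trans k2.symm

theorem cpj2_evS_frac (x : ProjectiveSpectrum 𝒜)
    (c : HomogeneousLocalization.NumDenSameDeg 𝒜 x.asHomogeneousIdeal.toIdeal.primeCompl) :
    cpj2_evS 𝒜 x ((Proj.stalkIso 𝒜 x).inv.hom (.mk c)) = algebraMap A (FractionRing A) (c.num : A) /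
      algebraMap A (FractionRing A) (c.den : A) := by
  unfold cpj2_evS
  rw [RingHom.comp_apply, ← cpj2_evAt_mk]
  congr 1
  exact (Proj.stalkIso' 𝒜 x).apply_symm_apply (.mk c)

theorem cpj2_evS_surj (x : ProjectiveSpectrum 𝒜) (r : (Proj 𝒜).presheaf.stalk x) :
    ∃ c : HomogeneousLocalization.NumDenSameDeg 𝒜 x.asHomogeneousIdeal.toIdeal.primeCompl,
      cpj2_evS 𝒜 x r = algebraMap A (FractionRing A) (c.num : A) /
      algebraMap A (FractionRing A) (c.den : A) := by
  obtain ⟨c, hc⟩ := HomogeneousLocalization.mk_surjective ((Proj.stalkIso 𝒜 x).hom.hom r)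
  refine ⟨c, ?_⟩
  unfold cpj2_evS
  rw [RingHom.comp_apply, ← cpj2_evAt_mk]
  congr 1
  exact hc.symm

omit [IsDomain A] in
theorem cpj2_isUnit_frac (x : ProjectiveSpectrum 𝒜)
    (c : HomogeneousLocalization.NumDenSameDeg 𝒜 x.asHomogeneousIdeal.toIdeal.primeCompl) :
    IsUnit ((Proj.stalkIso 𝒜 x).inv.hom (.mk c)) ↔ (c.num : A) ∉ x.asHomogeneousIdeal := by
  have h1 : IsUnit ((Proj.stalkIso 𝒜 x).inv.hom (.mk c)) ↔
      IsUnit (HomogeneousLocalization.mk c :
        HomogeneousLocalization.AtPrime 𝒜 x.asHomogeneousIdeal.toIdeal) := by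
    exact MulEquiv.isUnit_map (Proj.stalkIso' 𝒜 x).symm
  rw [h1, ← HomogeneousLocalization.isUnit_iff_isUnit_val, HomogeneousLocalization.val_mk,
    Localization.mk_eq_mk', IsLocalization.AtPrime.isUnit_mk'_iff]
  exact Iff.rfl

omit [IsDomain A] in
theorem cpj2_fromSpecStalk_toSpecZero (x : Proj 𝒜) :
    (Proj 𝒜).fromSpecStalk x ≫ Proj.toSpecZero 𝒜 =
      Spec.map (CommRingCat.ofHom (HomogeneousLocalization.fromZeroRingHom 𝒜
        (Submonoid.powers (1 : A))) ≫ Proj.awayToSection 𝒜 1 ≫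
        (Proj 𝒜).presheaf.germ (Proj.basicOpen 𝒜 1) x
          (by rw [Proj.basicOpen_one]; trivial)) := by
  have hx : x ∈ Proj.basicOpen 𝒜 1 := by rw [Proj.basicOpen_one]; trivial
  have e1 : (Proj 𝒜).fromSpecStalk x ≫ (Scheme.topIso _).inv ≫
      (Scheme.isoOfEq _ (Proj.basicOpen_one 𝒜)).inv =
      (Proj.basicOpen 𝒜 1).fromSpecStalkOfMem x hx := by
    rw [← cancel_mono (Proj.basicOpen 𝒜 1).ι]
    simp
  unfold Proj.toSpecZero
  have e2 := congrArg (fun f => f ≫ Proj.basicOpenToSpec 𝒜 1 ≫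
    Spec.map (CommRingCat.ofHom (HomogeneousLocalization.fromZeroRingHom 𝒜 _))) e1
  simp only [Category.assoc] at e2
  rw [e2]
  unfold Proj.basicOpenToSpec
  simp only [Category.assoc]
  rw [Scheme.Opens.fromSpecStalkOfMem_toSpecΓ_assoc, ← Spec.map_comp, ← Spec.map_comp]
  rfl

theorem cpj2_evS_zero (x : Proj 𝒜) (a : 𝒜 0) :
    cpj2_evS 𝒜 x ((CommRingCat.ofHom (HomogeneousLocalization.fromZeroRingHom 𝒜
        (Submonoid.powers (1 : A))) ≫ Proj.awayToSection 𝒜 1 ≫
        (Proj 𝒜).presheaf.germ (Proj.basicOpen 𝒜 1) x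
          (by rw [Proj.basicOpen_one]; trivial)).hom a) = algebraMap A (FractionRing A) (a : A) := by
  have hx : x ∈ Proj.basicOpen 𝒜 1 := by rw [Proj.basicOpen_one]; trivial
  have e1 := ProjectiveSpectrum.Proj.awayToSection_germ 𝒜 (1 : A) x hx
  have e2 := congrArg (fun f => f.hom (HomogeneousLocalization.fromZeroRingHom 𝒜
        (Submonoid.powers (1 : A)) a)) e1
  have e3 : ((CommRingCat.ofHom (HomogeneousLocalization.fromZeroRingHom 𝒜
        (Submonoid.powers (1 : A))) ≫ Proj.awayToSection 𝒜 1 ≫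
        (Proj 𝒜).presheaf.germ (Proj.basicOpen 𝒜 1) x hx).hom a) =
      (Proj.stalkIso 𝒜 x).inv.hom (.mk ⟨0, a, 1, by exact Submonoid.one_mem _⟩) := e2
  have k := cpj2_evS_frac 𝒜 x ⟨0, a, 1, Submonoid.one_mem _⟩
  refine (congrArg (cpj2_evS 𝒜 x) e3).trans (k.trans ?_)
  have h1 : ((1 : 𝒜 0) : A) = 1 := rfl
  simp only [h1, map_one, div_one]

end gen

theorem PSpace_ev (n : ℕ) (k : Type u) [Field k] [IsIntegral (PSpace n k)] :
    ∃ ev : (PSpace n k).functionField →+* FractionRing (MvPolynomial (Fin (n + 1)) k),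
      (∀ c : k, ev ((functionFieldAlgebra (PSpace.toSpec n k)).algebraMap c) =
        algebraMap (MvPolynomial (Fin (n + 1)) k) _ (MvPolynomial.C c)) ∧
      (∀ (E : PSpace n k) (d : ℕ) (f g : MvPolynomial (Fin (n + 1)) k),
        f.IsHomogeneous d → g.IsHomogeneous d → g ∉ ProjectiveSpectrum.asHomogeneousIdeal E →
        ∃ r : (PSpace n k).presheaf.stalk E,
          ev (toK r) = algebraMap _ _ f / algebraMap _ _ g ∧
          (IsUnit r ↔ f ∉ ProjectiveSpectrum.asHomogeneousIdeal E)) ∧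
      (∀ (E : PSpace n k) (r : (PSpace n k).presheaf.stalk E),
        ∃ (d : ℕ) (f g : MvPolynomial (Fin (n + 1)) k), f.IsHomogeneous d ∧ g.IsHomogeneous d ∧
          g ∉ ProjectiveSpectrum.asHomogeneousIdeal E ∧
          ev (toK r) = algebraMap _ _ f / algebraMap _ _ g) := by
  have spec : ∀ E : PSpace n k, genericPoint (PSpace n k) ⤳ E := fun E =>
    (genericPoint_spec (PSpace n k)).specializes trivial
  have compat : ∀ (E : PSpace n k) (r : (PSpace n k).presheaf.stalk E),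
      cpj2_evS (grading n k) (genericPoint (PSpace n k)) (toK (X := PSpace n k) (E := E) r) =
        cpj2_evS (grading n k) E r := fun E r =>
    cpj2_evS_compat (grading n k) E (genericPoint (PSpace n k)) (spec E) r
  refine ⟨cpj2_evS (grading n k) (genericPoint (PSpace n k)), ?_, ?_, ?_⟩
  · intro c
    have e1 : (PSpace n k).fromSpecStalk (genericPoint (PSpace n k)) ≫ PSpace.toSpec n k =
        Spec.map (CommRingCat.ofHom (algebraMap k (grading n k 0)) ≫
          (CommRingCat.ofHom (HomogeneousLocalization.fromZeroRingHom (grading n k)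
            (Submonoid.powers (1 : MvPolynomial (Fin (n + 1)) k))) ≫
            Proj.awayToSection (grading n k) 1 ≫
            (Proj (grading n k)).presheaf.germ (Proj.basicOpen (grading n k) 1)
              (genericPoint (PSpace n k)) (by rw [Proj.basicOpen_one]; trivial))) := by
      rw [Spec.map_comp]
      exact congrArg (fun f => f ≫ Spec.map (CommRingCat.ofHom (algebraMap k (grading n k 0))))
        (cpj2_fromSpecStalk_toSpecZero (grading n k) (genericPoint (PSpace n k)))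
    have e2 : (functionFieldAlgebra (PSpace.toSpec n k)).algebraMap c =
        (CommRingCat.ofHom (algebraMap k (grading n k 0)) ≫
          (CommRingCat.ofHom (HomogeneousLocalization.fromZeroRingHom (grading n k)
            (Submonoid.powers (1 : MvPolynomial (Fin (n + 1)) k))) ≫
            Proj.awayToSection (grading n k) 1 ≫
            (Proj (grading n k)).presheaf.germ (Proj.basicOpen (grading n k) 1)
              (genericPoint (PSpace n k)) (by rw [Proj.basicOpen_one]; trivial))).hom c := by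
      have e3 := (congrArg Spec.preimage e1).trans (Spec.preimage_map _)
      exact congrArg (fun f => f.hom c) e3
    rw [e2]
    exact cpj2_evS_zero (grading n k) (genericPoint (PSpace n k)) (algebraMap k (grading n k 0) c)
  · intro E d f g hf hg hgE
    refine ⟨(Proj.stalkIso (grading n k) E).inv.hom (.mk ⟨d, ⟨f, hf⟩, ⟨g, hg⟩, hgE⟩), ?_, ?_⟩
    · exact (compat E _).trans (cpj2_evS_frac (grading n k) E ⟨d, ⟨f, hf⟩, ⟨g, hg⟩, hgE⟩)
    · exact cpj2_isUnit_frac (grading n k) E ⟨d, ⟨f, hf⟩, ⟨g, hg⟩, hgE⟩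
  · intro E r
    obtain ⟨c, hc⟩ := cpj2_evS_surj (grading n k) E r
    have h := (compat E r).trans hc
    exact ⟨c.deg, c.num, c.den, c.num.2, c.den.2, c.den_mem, h⟩

end ClusterLift
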