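import Mathlib
import Pool.Agent.Helper271.CT.Defs
import Pool.Agent.Helper271.CP.Defs

universe u

open AlgebraicGeometry CategoryTheory

namespace ClusterLift

attribute [local instance] MvPolynomial.gradedAlgebra

theorem aux4_wedge_eq (K : Type u) {M : Type u} [Field K] [AddCommGroup M] [Module K M] {n : ℕ}
    (η : Fin n → M) : wedge K η = ExteriorAlgebra.ιMulti K n η := by
  rw [ExteriorAlgebra.ιMulti_apply]; rfl

theorem aux4_wedge_det (K : Type u) {M : Type u} [Field K] [AddCommGroup M] [Module K M] {n : ℕ}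
    (v : Fin n → M) (A : Matrix (Fin n) (Fin n) K) :
    wedge K (fun i => ∑ l, A i l • v l) = A.det • wedge K v := by
  rw [aux4_wedge_eq, aux4_wedge_eq]
  have key : (ExteriorAlgebra.ιMulti K n).compLinearMap (Fintype.linearCombination K v) =
      ((LinearMap.toSpanSingleton K (ExteriorAlgebra K M)
        (ExteriorAlgebra.ιMulti K n v)).compAlternatingMap (Matrix.detRowAlternating)) := by
    refine Module.Basis.ext_alternating (Pi.basisFun K (Fin n)) ?_
    intro σ hσ
    have h1 : ∀ i, Fintype.linearCombination K v (Pi.basisFun K (Fin n) i) = v i := by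
      intro i
      simp [Fintype.linearCombination_apply]
    obtain ⟨τ, hτ⟩ : ∃ τ : Equiv.Perm (Fin n), ⇑τ = σ :=
      ⟨Equiv.ofBijective σ (Finite.injective_iff_bijective.1 hσ), rfl⟩
    subst hτ
    have h2 := AlternatingMap.map_perm ((ExteriorAlgebra.ιMulti K n).compLinearMap
      (Fintype.linearCombination K v)) (⇑(Pi.basisFun K (Fin n))) τ
    have h3 := AlternatingMap.map_perm (((LinearMap.toSpanSingleton K (ExteriorAlgebra K M)
        (ExteriorAlgebra.ιMulti K n v)).compAlternatingMap (Matrix.detRowAlternating)))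
          (⇑(Pi.basisFun K (Fin n))) τ
    refine h2.trans (Eq.trans ?_ h3.symm)
    congr 1
    have h4 : ((ExteriorAlgebra.ιMulti K n).compLinearMap
      (Fintype.linearCombination K v)) (⇑(Pi.basisFun K (Fin n))) =
        ExteriorAlgebra.ιMulti K n v := by
      rw [AlternatingMap.compLinearMap_apply]
      congr 1
      funext i
      exact h1 i
    have h5 : (Matrix.detRowAlternating (R := K) (n := Fin n)) (⇑(Pi.basisFun K (Fin n))) = 1 := by
      have : (⇑(Pi.basisFun K (Fin n)) : Fin n → Fin n → K) = (1 : Matrix (Fin n) (Fin n) K) := by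
        funext i j
        simp [Matrix.one_apply, Pi.single_apply, eq_comm]
      rw [this]
      exact Matrix.det_one
    rw [h4]
    show _ = (LinearMap.toSpanSingleton K (ExteriorAlgebra K M)
        (ExteriorAlgebra.ιMulti K n v)) ((Matrix.detRowAlternating (R := K) (n := Fin n))
          (⇑(Pi.basisFun K (Fin n))))
    rw [h5]
    simp
  have := congrArg (fun f => f A) key
  have h2 : (fun i => ∑ l, A i l • v l) = fun i => Fintype.linearCombination K v (A i) := by
    funext i; rw [Fintype.linearCombination_apply]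
  rw [h2]
  exact this

theorem aux4_wedge_smul (K : Type u) {M : Type u} [Field K] [AddCommGroup M] [Module K M] {n : ℕ}
    (v : Fin n → M) (c : Fin n → K) :
    wedge K (fun i => c i • v i) = (∏ i, c i) • wedge K v := by
  rw [aux4_wedge_eq, aux4_wedge_eq]
  exact MultilinearMap.map_smul_univ _ c v

theorem aux4_D_aeval {k K : Type u} [Field k] [Field K] [Algebra k K] {n : ℕ} (y : Fin n → K)
    (a : MvPolynomial (Fin n) k) :
    KaehlerDifferential.D k K (MvPolynomial.aeval y a) =
      ∑ l, MvPolynomial.aeval y (MvPolynomial.pderiv l a) • KaehlerDifferential.D k K (y l) := by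
  induction a using MvPolynomial.induction_on with
  | C c => simp
  | add p q hp hq =>
    simp only [map_add, hp, hq, add_smul, Finset.sum_add_distrib]
  | mul_X p i hp =>
    rw [map_mul, Derivation.leibniz, MvPolynomial.aeval_X, hp, Finset.smul_sum]
    have h1 : ∀ l, MvPolynomial.aeval y (MvPolynomial.pderiv l (p * MvPolynomial.X i)) •
        KaehlerDifferential.D k K (y l) =
        (if l = i then MvPolynomial.aeval y p • KaehlerDifferential.D k K (y l) else 0) +
        y i • (MvPolynomial.aeval y (MvPolynomial.pderiv l p) •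
          KaehlerDifferential.D k K (y l)) := by
      intro l
      rw [Derivation.leibniz, MvPolynomial.pderiv_X, map_add, add_smul]
      congr 1
      · by_cases h : l = i
        · subst h; simp
        · rw [if_neg h, Pi.single_eq_of_ne (Ne.symm h)]; simp
      · simp [mul_smul]
    rw [Finset.sum_congr rfl fun l _ => h1 l, Finset.sum_add_distrib]
    simp


theorem aux4_coeff {k K R : Type u} [Field k] [Field K] [Algebra k K] [CommRing R]
    (j : R →+* K) {n : ℕ} (y : Fin n → K) (e : Fin n → R) (he : ∀ l, j (e l) = y l)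
    (hk : ∀ c : k, ∃ r : R, j r = algebraMap k K c) (a : MvPolynomial (Fin n) k) :
    ∃ r : R, j r = MvPolynomial.aeval y a := by
  induction a using MvPolynomial.induction_on with
  | C c =>
    obtain ⟨r, hr⟩ := hk c
    exact ⟨r, by rw [hr]; simp⟩
  | add p q hp hq =>
    obtain ⟨r, hr⟩ := hp
    obtain ⟨s, hs⟩ := hq
    exact ⟨r + s, by rw [map_add, map_add, hr, hs]⟩
  | mul_X p i hp =>
    obtain ⟨r, hr⟩ := hp
    exact ⟨r * e i, by rw [map_mul, map_mul, hr, he, MvPolynomial.aeval_X]⟩

theorem aux4_D_j {k K R : Type u} [Field k] [Field K] [Algebra k K] [CommRing R]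
    (j : R →+* K) {n : ℕ} (y : Fin n → K) (e : Fin n → R) (he : ∀ l, j (e l) = y l)
    (hk : ∀ c : k, ∃ r : R, j r = algebraMap k K c)
    (hR : ∀ r : R, ∃ (a b : MvPolynomial (Fin n) k) (v : R), IsUnit v ∧
      j v = MvPolynomial.aeval y b ∧ j r * j v = MvPolynomial.aeval y a) (r : R) :
    ∃ c : Fin n → R, KaehlerDifferential.D k K (j r) =
      ∑ l, j (c l) • KaehlerDifferential.D k K (y l) := by
  obtain ⟨a, b, v, hv, hb, ha⟩ := hR r
  obtain ⟨w, hw⟩ := hv.exists_left_inv
  have hjw : j w * j v = 1 := by rw [← map_mul, hw, map_one]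
  choose A hA using fun l => aux4_coeff j y e he hk (MvPolynomial.pderiv l a)
  choose B hB using fun l => aux4_coeff j y e he hk (MvPolynomial.pderiv l b)
  refine ⟨fun l => w * (A l - r * B l), ?_⟩
  have h1 : KaehlerDifferential.D k K (j r * j v) =
      ∑ l, j (A l) • KaehlerDifferential.D k K (y l) := by
    rw [ha, aux4_D_aeval]
    simp only [hA]
  have h2 : KaehlerDifferential.D k K (j v) =
      ∑ l, j (B l) • KaehlerDifferential.D k K (y l) := by
    rw [hb, aux4_D_aeval]
    simp only [hB]
  rw [Derivation.leibniz, h2] at h1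
  have h3 : KaehlerDifferential.D k K (j r) =
      j w • (j v • KaehlerDifferential.D k K (j r)) := by
    rw [smul_smul, hjw, one_smul]
  have h4 : j v • KaehlerDifferential.D k K (j r) =
      ∑ l, j (A l) • KaehlerDifferential.D k K (y l) -
        j r • ∑ l, j (B l) • KaehlerDifferential.D k K (y l) := by
    rw [← h1]; abel
  rw [h3, h4, Finset.smul_sum, ← Finset.sum_sub_distrib, Finset.smul_sum]
  refine Finset.sum_congr rfl fun l _ => ?_
  rw [smul_smul, ← sub_smul, smul_smul, map_mul, map_sub, map_mul]

theorem local_dlog {k K R : Type u} [Field k] [Field K] [Algebra k K] [CommRing R] [IsDomain R]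
    [IsLocalRing R] (hdim : ringKrullDim R = 1) (j : R →+* K) (hj : Function.Injective j) {n : ℕ}
    (y : Fin n → K) (hy : AlgebraicIndependent k y) (e : Fin n → R) (he : ∀ l, j (e l) = y l)
    (hk : ∀ c : k, ∃ r : R, j r = algebraMap k K c)
    (hR : ∀ r : R, ∃ (a b : MvPolynomial (Fin n) k) (v : R), IsUnit v ∧
      j v = MvPolynomial.aeval y b ∧ j r * j v = MvPolynomial.aeval y a)
    (t : R) (ht : Irreducible t) (m : ℕ) (hm : m = 0 ∧ (∀ l, IsUnit (e l)) ∨
      m = 1 ∧ ∃ l, ¬ IsUnit (e l)) :
    (∀ z : Fin n → R, ∃ r : R, wedge K (fun i => KaehlerDifferential.D k K (j (z i))) =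
      (j r * j t ^ m) • wedge K (fun i => (y i)⁻¹ • KaehlerDifferential.D k K (y i))) ∧
    ∃ (z : Fin n → R) (r : R), IsUnit r ∧
      wedge K (fun i => KaehlerDifferential.D k K (j (z i))) =
      (j r * j t ^ m) • wedge K (fun i => (y i)⁻¹ • KaehlerDifferential.D k K (y i)) := by
  have hy0 : ∀ l, y l ≠ 0 := fun l => hy.ne_zero l
  have hinj : Function.Injective (MvPolynomial.aeval (R := k) y) := hy
  -- the wedge of the `D y`
  have hw0 : wedge K (fun i => KaehlerDifferential.D k K (y i)) =
      j (∏ l, e l) • wedge K (fun i => (y i)⁻¹ • KaehlerDifferential.D k K (y i)) := by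
    have h1 := aux4_wedge_smul K (fun i => (y i)⁻¹ • KaehlerDifferential.D k K (y i)) y
    have h2 : (fun i => y i • (y i)⁻¹ • KaehlerDifferential.D k K (y i)) =
        fun i => KaehlerDifferential.D k K (y i) := by
      funext i
      rw [smul_smul, mul_inv_cancel₀ (hy0 i), one_smul]
    rw [h2] at h1
    rw [h1, map_prod]
    simp only [he]
  -- the product of the `e l`
  have hprod : ∃ u : R, IsUnit u ∧ ∏ l, e l = u * t ^ m := by
    rcases hm with ⟨rfl, hu⟩ | ⟨rfl, l0, hl0⟩
    · refine ⟨∏ l, e l, ?_, by simp⟩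
      exact (IsUnit.prod_univ_iff).2 hu
    · have key : ∀ (q : MvPolynomial (Fin n) k) (v : R), IsUnit v → j v = MvPolynomial.aeval y q →
          ¬ MvPolynomial.X l0 ∣ q := by
        rintro q v hv hq ⟨q', rfl⟩
        obtain ⟨s, hs⟩ := aux4_coeff j y e he hk q'
        apply hl0
        have : v = e l0 * s := by
          apply hj
          rw [hq, map_mul, map_mul, MvPolynomial.aeval_X, he, hs]
        rw [this] at hv
        exact isUnit_of_mul_isUnit_left hv
      have key2 : ∀ (q : MvPolynomial (Fin n) k) (a v : R), IsUnit v →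
          j a * j v = MvPolynomial.aeval y q → MvPolynomial.X l0 ∣ q → e l0 ∣ a := by
        rintro q a v hv hq ⟨q', rfl⟩
        obtain ⟨s, hs⟩ := aux4_coeff j y e he hk q'
        have : a * v = e l0 * s := by
          apply hj
          rw [map_mul, hq, map_mul, map_mul, MvPolynomial.aeval_X, he, hs]
        exact (hv.dvd_mul_right).1 ⟨s, this⟩
      have hX : Prime (MvPolynomial.X l0 : MvPolynomial (Fin n) k) := MvPolynomial.X_prime
      have he0 : e l0 ≠ 0 := by
        intro h
        apply hy0 l0
        rw [← he, h, map_zero]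
      have hprime : Prime (e l0) := by
        refine ⟨he0, hl0, ?_⟩
        rintro a b ⟨c, hc⟩
        obtain ⟨pa, qa, va, hva, hqa, hpa⟩ := hR a
        obtain ⟨pb, qb, vb, hvb, hqb, hpb⟩ := hR b
        obtain ⟨pc, qc, vc, hvc, hqc, hpc⟩ := hR c
        have h1 : MvPolynomial.aeval y (pa * pb * qc) =
            MvPolynomial.aeval y (MvPolynomial.X l0 * pc * qa * qb) := by
          simp only [map_mul, MvPolynomial.aeval_X, ← hpa, ← hpb, ← hpc, ← hqa, ← hqb, ← hqc]
          have h2 : j a * j b = y l0 * j c := by rw [← he, ← map_mul, ← map_mul, hc]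
          linear_combination (j va * j vb * j vc) * h2
        have h3 := hinj h1
        have h4 : MvPolynomial.X l0 ∣ pa * pb * qc := by
          rw [h3]
          exact ⟨pc * qa * qb, by ring⟩
        rcases hX.dvd_or_dvd h4 with h5 | h5
        · rcases hX.dvd_or_dvd h5 with h6 | h6
          · exact Or.inl (key2 pa a va hva hpa h6)
          · exact Or.inr (key2 pb b vb hvb hpb h6)
        · exact absurd h5 (key qc vc hvc hqc)
      haveI : Ring.KrullDimLE 1 R := (Ring.krullDimLE_iff (n := 1)).2 (by rw [hdim]; rfl)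
      have hmax : (Ideal.span {e l0} : Ideal R).IsMaximal := by
        refine Ring.krullDimLE_one_iff_of_noZeroDivisors.1 inferInstance _ ?_ ?_
        · rw [Ne, Ideal.span_singleton_eq_bot]; exact he0
        · rw [Ideal.span_singleton_prime he0]; exact hprime
      have hmem : ∀ x : R, ¬ IsUnit x → e l0 ∣ x := by
        intro x hx
        have h1 : x ∈ IsLocalRing.maximalIdeal R := (IsLocalRing.mem_maximalIdeal x).2 hx
        rw [← IsLocalRing.eq_maximalIdeal hmax] at h1
        exact Ideal.mem_span_singleton.1 h1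
      have htt : ∃ u : R, IsUnit u ∧ e l0 = u * t := by
        obtain ⟨s, hs⟩ := hmem t ht.not_isUnit
        have hs' : IsUnit s := (ht.isUnit_or_isUnit hs).resolve_left hl0
        obtain ⟨w, hw⟩ := hs'.exists_left_inv
        refine ⟨w, IsUnit.of_mul_eq_one s hw, ?_⟩
        rw [hs]
        calc e l0 = (w * s) * e l0 := by rw [hw, one_mul]
          _ = w * (e l0 * s) := by ring
      have hunit : ∀ l, l ≠ l0 → IsUnit (e l) := by
        intro l hl
        by_contra hcon
        obtain ⟨c, hc⟩ := hmem _ hcon
        obtain ⟨pc, qc, vc, hvc, hqc, hpc⟩ := hR c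
        have h1 : MvPolynomial.aeval y (MvPolynomial.X l * qc) =
            MvPolynomial.aeval y (MvPolynomial.X l0 * pc) := by
          simp only [map_mul, MvPolynomial.aeval_X, ← hpc, ← hqc]
          have h2 : y l = y l0 * j c := by rw [← he, ← he, ← map_mul, hc]
          rw [h2]; ring
        have h3 := hinj h1
        have h4 : MvPolynomial.X l0 ∣ MvPolynomial.X l * qc := ⟨pc, h3⟩
        rcases hX.dvd_or_dvd h4 with h5 | h5
        · rw [MvPolynomial.X_dvd_X] at h5
          exact hl h5.symm
        · exact key qc vc hvc hqc h5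
      obtain ⟨u, hu, hut⟩ := htt
      refine ⟨u * ∏ l ∈ Finset.univ.erase l0, e l, ?_, ?_⟩
      · refine hu.mul ?_
        exact (IsUnit.prod_iff).2 fun l hl => hunit l (Finset.ne_of_mem_erase hl)
      · rw [← Finset.mul_prod_erase Finset.univ e (Finset.mem_univ l0), hut]
        ring
  obtain ⟨u, hu, hut⟩ := hprod
  refine ⟨fun z => ?_, ?_⟩
  · choose c hc using fun i => aux4_D_j j y e he hk hR (z i)
    refine ⟨Matrix.det (Matrix.of fun i l => c i l) * u, ?_⟩
    have h1 : (fun i => KaehlerDifferential.D k K (j (z i))) =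
        fun i => ∑ l, (Matrix.of fun i l => j (c i l)) i l • KaehlerDifferential.D k K (y l) := by
      funext i
      rw [hc i]; rfl
    rw [h1, aux4_wedge_det, hw0, smul_smul, hut]
    congr 1
    have h2 : j (Matrix.det (Matrix.of fun i l => c i l)) =
        Matrix.det (Matrix.of fun i l => j (c i l)) := by
      rw [RingHom.map_det]; rfl
    rw [map_mul, map_mul, map_pow, h2]
    ring
  · refine ⟨e, u, hu, ?_⟩
    simp only [he]
    rw [hw0, hut, map_mul, map_pow]

end ClusterLift
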