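import Mathlib
import Pool.Agent.Helper271.CT.Defs
import Pool.Agent.Helper271.CP.Defs

universe u

open AlgebraicGeometry CategoryTheory

namespace ClusterLift

attribute [local instance] MvPolynomial.gradedAlgebra

theorem exists_lift_stalk_algMap (X : Scheme.{u}) [IsIntegral X] (E : X) :
    Spec.map (CommRingCat.ofHom (algebraMap (X.presheaf.stalk E) X.functionField))
      ≫ X.fromSpecStalk E = X.fromSpecStalk (genericPoint X) :=
  Scheme.SpecMap_stalkSpecializes_fromSpecStalk ((genericPoint_spec X).specializes trivial)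

theorem exists_lift_stalk_square {X Y : Scheme.{u}} [IsIntegral X] [IsIntegral Y] (π : Y ⟶ X)
    (φ : X.functionField ≃+* Y.functionField) (hφ : InducesOnFunctionFields π φ) (E : X) :
    (Spec.map (CommRingCat.ofHom φ.symm.toRingHom) ≫ Y.fromSpecStalk (genericPoint Y)) ≫ π
      = Spec.map (CommRingCat.ofHom (algebraMap (X.presheaf.stalk E) X.functionField))
        ≫ X.fromSpecStalk E := by
  rw [exists_lift_stalk_algMap, Category.assoc]
  unfold InducesOnFunctionFields at hφ
  rw [hφ, ← Category.assoc, ← Spec.map_comp, ← CommRingCat.ofHom_comp]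
  have : φ.symm.toRingHom.comp φ.toRingHom = RingHom.id _ := by
    ext x
    exact φ.symm_apply_apply x
  rw [this]
  change Spec.map (𝟙 _) ≫ _ = _
  rw [Spec.map_id, Category.id_comp]

theorem exists_lift_stalk_val {X Y : Scheme.{u}} (f : X ⟶ Y) [UniversallyClosed f] (R K : Type u)
    [CommRing R] [IsDomain R] [ValuationRing R] [Field K] [Algebra R K] [IsFractionRing R K]
    (i₁ : Spec (.of K) ⟶ X) (i₂ : Spec (.of R) ⟶ Y)
    (h : i₁ ≫ f = Spec.map (CommRingCat.ofHom (algebraMap R K)) ≫ i₂) :
    ∃ l : Spec (.of R) ⟶ X, Spec.map (CommRingCat.ofHom (algebraMap R K)) ≫ l = i₁ ∧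
      l ≫ f = i₂ := by
  have hex : ValuativeCriterion.Existence f := by
    have h1 : UniversallyClosed f := inferInstance
    rw [UniversallyClosed.eq_valuativeCriterion] at h1
    exact h1.1
  obtain ⟨l, hl1, hl2⟩ := (hex
    { R := R, K := K, i₁ := i₁, i₂ := i₂, commSq := ⟨h⟩ }).exists_lift
  exact ⟨l, hl1, hl2⟩

theorem exists_lift_stalk_lift {X Y : Scheme.{u}} [IsIntegral X] [IsIntegral Y] (π : Y ⟶ X)
    [IsProper π] (φ : X.functionField ≃+* Y.functionField) (hφ : InducesOnFunctionFields π φ)
    (E : X) (hE : ValuationRing (X.presheaf.stalk E)) :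
    ∃ l : Spec (X.presheaf.stalk E) ⟶ Y,
      Spec.map (CommRingCat.ofHom (algebraMap (X.presheaf.stalk E) X.functionField)) ≫ l
        = Spec.map (CommRingCat.ofHom φ.symm.toRingHom) ≫ Y.fromSpecStalk (genericPoint Y) ∧
      l ≫ π = X.fromSpecStalk E := by
  have h := @exists_lift_stalk_val Y X π inferInstance (X.presheaf.stalk E) X.functionField
    inferInstance inferInstance hE inferInstance inferInstance inferInstance
  exact h (Spec.map (CommRingCat.ofHom φ.symm.toRingHom) ≫ Y.fromSpecStalk (genericPoint Y))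
    (X.fromSpecStalk E) (exists_lift_stalk_square π φ hφ E)

/-- the image of the closed point -/
noncomputable def exists_lift_stalk_pt {X Y : Scheme.{u}} (E : X)
    (l : Spec (X.presheaf.stalk E) ⟶ Y) : Y := l (IsLocalRing.closedPoint (X.presheaf.stalk E))

noncomputable def exists_lift_stalk_mp {X Y : Scheme.{u}} (E : X)
    (l : Spec (X.presheaf.stalk E) ⟶ Y) :
    Y.presheaf.stalk (exists_lift_stalk_pt E l) ⟶ X.presheaf.stalk E :=
  Scheme.stalkClosedPointTo l

theorem exists_lift_stalk_mp_comp {X Y : Scheme.{u}} (E : X)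
    (l : Spec (X.presheaf.stalk E) ⟶ Y) :
    Spec.map (exists_lift_stalk_mp E l) ≫ Y.fromSpecStalk _ = l :=
  Scheme.Spec_stalkClosedPointTo_fromSpecStalk l

theorem exists_lift_stalk_pt_eq {X Y : Scheme.{u}} (π : Y ⟶ X) (E : X)
    (l : Spec (X.presheaf.stalk E) ⟶ Y) (hl : l ≫ π = X.fromSpecStalk E) :
    π (exists_lift_stalk_pt E l) = E := by
  have h1 : π (exists_lift_stalk_pt E l)
      = (l ≫ π) (IsLocalRing.closedPoint (X.presheaf.stalk E)) := rfl
  rw [h1, hl]
  exact Scheme.fromSpecStalk_closedPoint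

noncomputable def exists_lift_stalk_tf (X : Scheme.{u}) [IsIntegral X] (E : X) :
    X.presheaf.stalk E ⟶ X.functionField :=
  X.presheaf.stalkSpecializes ((genericPoint_spec X).specializes trivial)

noncomputable def exists_lift_stalk_ps {X Y : Scheme.{u}} [IsIntegral X] [IsIntegral Y]
    (φ : X.functionField ≃+* Y.functionField) : Y.functionField ⟶ X.functionField :=
  CommRingCat.ofHom φ.symm.toRingHom

theorem exists_lift_stalk_tf_comp (X : Scheme.{u}) [IsIntegral X] (E : X) :
    Spec.map (exists_lift_stalk_tf X E) ≫ X.fromSpecStalk E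
      = X.fromSpecStalk (genericPoint X) :=
  Scheme.SpecMap_stalkSpecializes_fromSpecStalk ((genericPoint_spec X).specializes trivial)

/-- first identity: compatibility with the function fields -/
theorem exists_lift_stalk_one {X Y : Scheme.{u}} [IsIntegral X] [IsIntegral Y]
    (φ : X.functionField ≃+* Y.functionField)
    (E : X) (l : Spec (X.presheaf.stalk E) ⟶ Y)
    (hl : Spec.map (exists_lift_stalk_tf X E) ≫ l
        = Spec.map (exists_lift_stalk_ps φ) ≫ Y.fromSpecStalk (genericPoint Y)) :
    exists_lift_stalk_mp E l ≫ exists_lift_stalk_tf X E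
      = exists_lift_stalk_tf Y (exists_lift_stalk_pt E l) ≫ exists_lift_stalk_ps φ := by
  apply Spec.map_injective
  rw [Spec.map_comp, Spec.map_comp]
  rw [← cancel_mono (Y.fromSpecStalk (exists_lift_stalk_pt E l)),
    Category.assoc, Category.assoc, exists_lift_stalk_tf_comp, ← hl,
    exists_lift_stalk_mp_comp]

/-- second identity -/
theorem exists_lift_stalk_two {X Y : Scheme.{u}} [IsIntegral X] [IsIntegral Y] (π : Y ⟶ X)
    (E : X) (l : Spec (X.presheaf.stalk E) ⟶ Y) (hl : l ≫ π = X.fromSpecStalk E)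
    (h : E ⤳ π (exists_lift_stalk_pt E l)) :
    π.stalkMap (exists_lift_stalk_pt E l) ≫
      exists_lift_stalk_mp E l = X.presheaf.stalkSpecializes h := by
  apply Spec.map_injective
  rw [Spec.map_comp]
  rw [← cancel_mono (X.fromSpecStalk _), Category.assoc,
    Scheme.SpecMap_stalkMap_fromSpecStalk, Scheme.SpecMap_stalkSpecializes_fromSpecStalk,
    ← Category.assoc, exists_lift_stalk_mp_comp, hl]

theorem exists_lift_stalk_surj (X : Scheme.{u}) {E F : X} (h : E = F) (hs : E ⤳ F) :
    Function.Surjective (X.presheaf.stalkSpecializes hs).hom := by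
  subst h
  intro x
  refine ⟨x, ?_⟩
  rw [TopCat.Presheaf.stalkSpecializes_refl]
  rfl

theorem exists_lift_stalk {X Y : Scheme.{u}} [IsIntegral X] [IsIntegral Y] (π : Y ⟶ X)
    [IsProper π] (φ : X.functionField ≃+* Y.functionField) (hφ : InducesOnFunctionFields π φ)
    (E : X) (hE : ValuationRing (X.presheaf.stalk E)) :
    ∃ F : Y, π F = E ∧ ∃ e : X.presheaf.stalk E ≃+* Y.presheaf.stalk F,
      ∀ r : X.presheaf.stalk E, toK (e r) = φ (toK r) := by
  obtain ⟨l, hl1, hl2⟩ := exists_lift_stalk_lift π φ hφ E hE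
  have hπ := exists_lift_stalk_pt_eq π E l hl2
  have h1 := exists_lift_stalk_one φ E l hl1
  have h2 := exists_lift_stalk_two π E l hl2 (specializes_of_eq hπ.symm)
  have h1' : ∀ r, toK ((exists_lift_stalk_mp E l).hom r) = φ.symm (toK r) := by
    intro r
    have := congrArg (fun f => f.hom r) h1
    exact this
  refine ⟨exists_lift_stalk_pt E l, hπ, ?_⟩
  have hinj : Function.Injective (exists_lift_stalk_mp E l).hom := by
    intro a b hab
    have h3 : φ.symm (toK a) = φ.symm (toK b) := by
      rw [← h1', ← h1', hab]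
    have h4 : toK a = toK b := φ.symm.injective h3
    exact IsFractionRing.injective (Y.presheaf.stalk _) Y.functionField h4
  have hsurj : Function.Surjective (exists_lift_stalk_mp E l).hom := by
    intro s
    obtain ⟨s', hs'⟩ := exists_lift_stalk_surj X hπ.symm (specializes_of_eq hπ.symm) s
    refine ⟨(π.stalkMap (exists_lift_stalk_pt E l)).hom s', ?_⟩
    rw [← hs', ← h2]
    rfl
  refine ⟨(RingEquiv.ofBijective _ ⟨hinj, hsurj⟩).symm, fun r => ?_⟩
  have h5 := h1' ((RingEquiv.ofBijective _ ⟨hinj, hsurj⟩).symm r)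
  have h6 : (exists_lift_stalk_mp E l).hom ((RingEquiv.ofBijective _ ⟨hinj, hsurj⟩).symm r) = r :=
    (RingEquiv.ofBijective _ ⟨hinj, hsurj⟩).apply_symm_apply r
  rw [h6] at h5
  rw [h5, RingEquiv.apply_symm_apply]

end ClusterLift
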