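import Mathlib
import Pool.Agent.Helper271.CT.Defs
import Pool.Agent.Helper271.CP.Defs

universe u

open AlgebraicGeometry CategoryTheory

namespace ClusterLift

attribute [local instance] MvPolynomial.gradedAlgebra

theorem aux10_wedge_eq {K : Type u} {M : Type u} [Field K] [AddCommGroup M] [Module K M] {n : ℕ}
    (η : Fin n → M) : wedge K η = ExteriorAlgebra.ιMulti K n η := by
  rw [ExteriorAlgebra.ιMulti_apply]
  rfl

theorem aux10_wedge_comb {K : Type u} {M : Type u} [Field K] [AddCommGroup M] [Module K M] {n : ℕ}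
    (e : Fin n → M) (A : Fin n → Fin n → K) :
    ∃ c : K, wedge K (fun i => ∑ l, A i l • e l) = c • wedge K e := by
  suffices h : wedge K (fun i => ∑ l, A i l • e l) ∈ Submodule.span K {wedge K e} by
    obtain ⟨c, hc⟩ := Submodule.mem_span_singleton.1 h
    exact ⟨c, hc.symm⟩
  rw [aux10_wedge_eq, aux10_wedge_eq]
  have h1 : ExteriorAlgebra.ιMulti K n (fun i => ∑ l, A i l • e l)
      = ∑ r : Fin n → Fin n, ExteriorAlgebra.ιMulti K n (fun i => A i (r i) • e (r i)) := by
    exact MultilinearMap.map_sum (ExteriorAlgebra.ιMulti K n).toMultilinearMap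
      (fun i l => A i l • e l)
  rw [h1]
  refine Submodule.sum_mem _ (fun r _ => ?_)
  have h2 : ExteriorAlgebra.ιMulti K n (fun i => A i (r i) • e (r i))
      = (∏ i, A i (r i)) • ExteriorAlgebra.ιMulti K n (fun i => e (r i)) := by
    exact MultilinearMap.map_smul_univ (ExteriorAlgebra.ιMulti K n).toMultilinearMap
      (fun i => A i (r i)) (fun i => e (r i))
  rw [h2]
  refine Submodule.smul_mem _ _ ?_
  by_cases hr : Function.Injective r
  · obtain ⟨σ, hσ⟩ : ∃ σ : Equiv.Perm (Fin n), ∀ i, σ i = r i :=
      ⟨Equiv.ofBijective r (Finite.injective_iff_bijective.1 hr), fun i => rfl⟩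
    have h3 : (fun i => e (r i)) = e ∘ σ := by
      funext i
      simp [hσ]
    rw [h3, AlternatingMap.map_perm]
    rcases Int.units_eq_one_or (Equiv.Perm.sign σ) with h | h
    · rw [h, one_smul]
      exact Submodule.mem_span_singleton_self _
    · rw [h]
      have h4 : ((-1 : ℤˣ) • (ExteriorAlgebra.ιMulti K n) e) = -(ExteriorAlgebra.ιMulti K n e) := by
        simp
      rw [h4]
      exact Submodule.neg_mem _ (Submodule.mem_span_singleton_self _)
  · have h3 : ExteriorAlgebra.ιMulti K n (fun i => e (r i)) = 0 := by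
      rw [Function.Injective] at hr
      push Not at hr
      obtain ⟨a, b, hab, hne⟩ := hr
      exact AlternatingMap.map_eq_zero_of_eq _ _ (by rw [hab]) hne
    rw [h3]
    exact Submodule.zero_mem _

theorem aux10_D_mem {k K : Type u} [Field k] [Field K] [Algebra k K] {n : ℕ}
    (x : Fin n → K)
    (hx : IntermediateField.adjoin k (Set.range x) = ⊤) (z : K) :
    KaehlerDifferential.D k K z ∈
      Submodule.span K (Set.range fun l => KaehlerDifferential.D k K (x l)) := by
  have hz : z ∈ IntermediateField.adjoin k (Set.range x) := by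
    rw [hx]; exact IntermediateField.mem_top
  induction hz using IntermediateField.adjoin_induction with
  | mem y hy =>
    obtain ⟨l, rfl⟩ := hy
    exact Submodule.subset_span ⟨l, rfl⟩
  | algebraMap c =>
    rw [Derivation.map_algebraMap]
    exact Submodule.zero_mem _
  | add a b _ _ ha hb =>
    rw [map_add]
    exact Submodule.add_mem _ ha hb
  | inv a _ ha =>
    rw [Derivation.leibniz_inv]
    exact Submodule.smul_mem _ _ ha
  | mul a b _ _ ha hb =>
    rw [Derivation.leibniz]
    exact Submodule.add_mem _ (Submodule.smul_mem _ _ hb) (Submodule.smul_mem _ _ ha)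

theorem wedge_dlog_of_adjoin {k K : Type u} [Field k] [Field K] [Algebra k K] {n : ℕ}
    (x : Fin n → K) (hx0 : ∀ i, x i ≠ 0)
    (hx : IntermediateField.adjoin k (Set.range x) = ⊤) (z : Fin n → K) :
    ∃ c : K, wedge K (fun i => KaehlerDifferential.D k K (z i)) =
      c • wedge K (fun i => (x i)⁻¹ • KaehlerDifferential.D k K (x i)) := by
  have h1 : ∀ i, ∃ A : Fin n → K, KaehlerDifferential.D k K (z i)
      = ∑ l, A l • ((x l)⁻¹ • KaehlerDifferential.D k K (x l)) := by
    intro i
    have h2 := aux10_D_mem x hx (z i)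
    obtain ⟨c, hc⟩ := (Submodule.mem_span_range_iff_exists_fun K).1 h2
    refine ⟨fun l => c l * x l, ?_⟩
    rw [← hc]
    refine Finset.sum_congr rfl (fun l _ => ?_)
    beta_reduce
    rw [smul_smul, mul_assoc, mul_inv_cancel₀ (hx0 l), mul_one]
  choose A hA using h1
  have h3 : (fun i => KaehlerDifferential.D k K (z i))
      = fun i => ∑ l, A i l • ((x l)⁻¹ • KaehlerDifferential.D k K (x l)) := by
    funext i
    exact hA i
  rw [h3]
  exact aux10_wedge_comb (fun l => (x l)⁻¹ • KaehlerDifferential.D k K (x l)) A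

end ClusterLift
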