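import Mathlib
import Pool.Agent.Helper271.CT.Defs
import Pool.Agent.Helper271.CP.Defs

universe u

open AlgebraicGeometry CategoryTheory

namespace ClusterLift

attribute [local instance] MvPolynomial.gradedAlgebra

theorem alt_sub_entries {K M N : Type*} [Field K] [AddCommGroup M] [Module K M]
    [AddCommGroup N] [Module K N] {n : ℕ} (f : M [⋀^Fin n]→ₗ[K] N) (u : Fin n → M) (k : Fin n)
    (s : Finset (Fin n)) (hk : k ∉ s) :
    f (fun l => if l ∈ s then u l - u k else u l) = f u := by
  induction s using Finset.induction_on with
  | empty => simp
  | insert a s ha ih =>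
    have hks : k ∉ s := fun h => hk (Finset.mem_insert_of_mem h)
    have hak : a ≠ k := fun h => hk (h ▸ Finset.mem_insert_self a s)
    have e : (fun l => if l ∈ insert a s then u l - u k else u l) =
        Function.update (fun l => if l ∈ s then u l - u k else u l) a (u a - u k) := by
      funext l
      by_cases hl : l = a
      · subst hl
        simp
      · simp [hl]
    rw [e, f.map_update_sub]
    have e1 : Function.update (fun l => if l ∈ s then u l - u k else u l) a (u a) =
        (fun l => if l ∈ s then u l - u k else u l) := by
      funext l
      by_cases hl : l = a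
      · subst hl
        simp [ha]
      · simp [hl]
    have e2 : f (Function.update (fun l => if l ∈ s then u l - u k else u l) a (u k)) = 0 := by
      apply f.map_eq_zero_of_eq _ (i := a) (j := k) _ hak
      simp [hak.symm, hks]
    rw [e1, ih hks, e2, sub_zero]

theorem alt_pivot {K M N : Type*} [Field K] [AddCommGroup M] [Module K M]
    [AddCommGroup N] [Module K N] {n : ℕ} (f : M [⋀^Fin n]→ₗ[K] N) (u : Fin n → M) (k : Fin n) :
    f (fun l => if l = k then - u k else u l - u k) = - f u := by
  have e : (fun l => if l = k then - u k else u l - u k) =
      Function.update (fun l => if l ∈ Finset.univ.erase k then u l - u k else u l) k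
        ((-1 : K) • u k) := by
    funext l
    by_cases hl : l = k
    · subst hl
      simp
    · simp [hl]
  have e1 : Function.update (fun l => if l ∈ Finset.univ.erase k then u l - u k else u l) k
      (u k) = (fun l => if l ∈ Finset.univ.erase k then u l - u k else u l) := by
    funext l
    by_cases hl : l = k
    · subst hl
      simp
    · simp [hl]
  rw [e, f.map_update_smul, e1, alt_sub_entries f u k _ (Finset.notMem_erase _ _)]
  simp

theorem wedge_succAbove {K M : Type u} [Field K] [AddCommGroup M] [Module K M] {n : ℕ}
    (δ : Fin (n + 1) → M) (i : Fin (n + 1)) :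
    ∃ ε : ℤ, (ε = 1 ∨ ε = -1) ∧ wedge K (fun l : Fin n => δ (i.succAbove l) - δ i) =
      (ε : K) • wedge K (fun l : Fin n => δ (Fin.succ l) - δ 0) := by
  have hw : ∀ η : Fin n → M, wedge K η = ExteriorAlgebra.ιMulti K n η := by
    intro η
    rw [ExteriorAlgebra.ιMulti_apply]
    rfl
  simp only [hw]
  induction i using Fin.induction with
  | zero =>
    refine ⟨1, Or.inl rfl, ?_⟩
    simp
  | succ i ih =>
    obtain ⟨ε, hε, h⟩ := ih
    refine ⟨-ε, ?_, ?_⟩
    · rcases hε with h | h <;> simp [h]
    · have e : (fun l : Fin n => δ (i.succ.succAbove l) - δ i.succ) =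
          (fun l => if l = i then - (δ (i.castSucc.succAbove i) - δ i.castSucc) else
            (δ (i.castSucc.succAbove l) - δ i.castSucc) -
              (δ (i.castSucc.succAbove i) - δ i.castSucc)) := by
        funext l
        have h1 : i.castSucc.succAbove i = i.succ := by
          rw [Fin.succAbove_castSucc_self]
        by_cases hl : l = i
        · subst hl
          have h2 : l.succ.succAbove l = l.castSucc := by
            rw [Fin.succAbove_succ_self]
          rw [if_pos rfl, h1, h2]
          abel
        · have h2 : i.succ.succAbove l = i.castSucc.succAbove l := by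
            rcases lt_or_gt_of_ne hl with hlt | hgt
            · rw [Fin.succAbove_of_castSucc_lt, Fin.succAbove_of_castSucc_lt]
              · exact Fin.castSucc_lt_castSucc_iff.2 hlt
              · exact (Fin.castSucc_lt_castSucc_iff.2 hlt).trans (Fin.castSucc_lt_succ)
            · rw [Fin.succAbove_of_lt_succ, Fin.succAbove_of_lt_succ]
              · exact (Fin.castSucc_lt_castSucc_iff.2 hgt).trans (Fin.castSucc_lt_succ)
              · exact Fin.succ_lt_succ_iff.2 hgt
          rw [if_neg hl, h1, h2]
          abel
      rw [e, alt_pivot (ExteriorAlgebra.ιMulti K n)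
        (fun l => δ (i.castSucc.succAbove l) - δ i.castSucc) i, h]
      push_cast
      rw [neg_smul]

end ClusterLift
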