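import Mathlib
import Pool.Agent.Helper271.CT.Defs
import Pool.Agent.Helper271.CP.Defs
import Pool.Agent.Helper271.CP.Ev
import Pool.Agent.Helper271.CP.Stalk
import Pool.Agent.Helper271.CP.Coords
import Pool.Agent.Helper271.CP.LocalDlog
import Pool.Agent.Helper271.CP.WedgeSwap
import Pool.Agent.Helper271.CP.Compat
import Pool.Agent.Helper271.CP.WedgeSpan
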