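import Mathlib
import Pool.Agent.Helper271.CP.Lemmas

universe u

open AlgebraicGeometry CategoryTheory

namespace ClusterLift

attribute [local instance] MvPolynomial.gradedAlgebra

theorem dlog_div {k K : Type u} [Field k] [Field K] [Algebra k K] (a b : K) (ha : a ≠ 0)
    (hb : b ≠ 0) : (a / b)⁻¹ • KaehlerDifferential.D k K (a / b) =
      a⁻¹ • KaehlerDifferential.D k K a - b⁻¹ • KaehlerDifferential.D k K b := by
  have h : a = (a / b) * b := by field_simp
  have h1 : KaehlerDifferential.D k K a =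
      (a / b) • KaehlerDifferential.D k K b + b • KaehlerDifferential.D k K (a / b) := by
    conv_lhs => rw [h]
    rw [Derivation.leibniz]
  rw [h1, smul_add, smul_smul, smul_smul]
  have e1 : a⁻¹ * (a / b) = b⁻¹ := by field_simp
  have e2 : a⁻¹ * b = (a / b)⁻¹ := by field_simp
  rw [e1, e2]
  abel

theorem exists_X_notMem (n : ℕ) (k : Type u) [Field k] (E : PSpace n k) :
    ∃ i : Fin (n + 1), MvPolynomial.X i ∉ ProjectiveSpectrum.asHomogeneousIdeal E := by
  by_contra hcon
  push Not at hcon
  refine ProjectiveSpectrum.not_irrelevant_le E ?_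
  intro f hf
  have hf' : f ∈ HomogeneousIdeal.irrelevant (grading n k) := hf
  rw [HomogeneousIdeal.mem_irrelevant_iff] at hf'
  have h0 : MvPolynomial.homogeneousComponent 0 f = 0 := by
    rw [← MvPolynomial.decomposition.decompose'_apply]
    simpa [GradedRing.proj_apply] using hf'
  have hmem : f ∈ Ideal.span (MvPolynomial.X '' (Set.univ : Set (Fin (n + 1)))) := by
    rw [MvPolynomial.mem_ideal_span_X_image]
    intro m hm
    by_contra hm0
    push Not at hm0
    have hm1 : m = 0 := by
      ext i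
      simpa using hm0 i (Set.mem_univ i)
    rw [MvPolynomial.homogeneousComponent_zero, MvPolynomial.C_eq_zero] at h0
    subst hm1
    exact (MvPolynomial.mem_support_iff.mp hm) h0
  refine (Ideal.span_le.mpr ?_) hmem
  rintro _ ⟨i, -, rfl⟩
  exact hcon i

open Classical in
/-- The integral multiplicity of `H₀ + … + Hₙ` at `E`. -/
noncomputable def hypZ (n : ℕ) (k : Type u) [Field k] (E : PSpace n k) : ℤ :=
  if ∃ i : Fin (n + 1), MvPolynomial.X i ∈ ProjectiveSpectrum.asHomogeneousIdeal E then 1 else 0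

theorem hypZ_cast (n : ℕ) (k : Type u) [Field k] (E : PSpace n k) :
    ((hypZ n k E : ℤ) : ℚ) = hyperplanes n k E := by
  unfold hypZ hyperplanes
  split_ifs <;> simp

theorem PSpace_dlog (n : ℕ) (k : Type u) [Field k]
    {K : Type u} [Field K] [Algebra k K]
    (ι : (PSpace n k).functionField ≃+* K)
    (hι : ∀ c : k, ι ((functionFieldAlgebra (PSpace.toSpec n k)).algebraMap c) =
      algebraMap k K c) :
    ∃ x : Fin n → K, (∀ i, x i ≠ 0) ∧ AlgebraicIndependent k x ∧
      IntermediateField.adjoin k (Set.range x) = ⊤ ∧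
      IsDivisorOfForm k n ι (wedge K (fun i => (x i)⁻¹ • KaehlerDifferential.D k K (x i)))
        (fun E => - hypZ n k E) := by
  obtain ⟨w, hw0, hw1, hai, hadj, hconst, hstalk⟩ := PSpace_coords n k ι hι (PSpace_ev n k)
  have hx : (fun l : Fin n => w ((0 : Fin (n + 1)).succAbove l) / w 0) = fun l => w l.succ := by
    funext l
    rw [hw1, div_one, Fin.succAbove_zero]
  refine ⟨fun l => w l.succ, fun i => hw0 _, hx ▸ hai 0, hx ▸ hadj 0, ?_⟩
  intro E hE t ht
  obtain ⟨i, hi⟩ := exists_X_notMem n k E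
  obtain ⟨h1, h2⟩ := hstalk E i hi
  choose e he heu using h1
  have hδ : ∀ j : Fin (n + 1), (fun l : Fin n => (w (j.succAbove l) / w j)⁻¹ •
      KaehlerDifferential.D k K (w (j.succAbove l) / w j)) = fun l =>
      (w (j.succAbove l))⁻¹ • KaehlerDifferential.D k K (w (j.succAbove l)) -
      (w j)⁻¹ • KaehlerDifferential.D k K (w j) := by
    intro j
    funext l
    exact dlog_div _ _ (hw0 _) (hw0 _)
  obtain ⟨ε, hε, hεw⟩ := wedge_succAbove (K := K)
    (fun j => (w j)⁻¹ • KaehlerDifferential.D k K (w j)) i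
  have hΩ : (fun l : Fin n => (w l.succ)⁻¹ • KaehlerDifferential.D k K (w l.succ)) =
      fun l : Fin n => (w l.succ)⁻¹ • KaehlerDifferential.D k K (w l.succ) -
      (w 0)⁻¹ • KaehlerDifferential.D k K (w 0) := by
    funext l
    rw [hw1]
    simp
  have hdim : ringKrullDim ((PSpace n k).presheaf.stalk E) = 1 := hE
  have hj : Function.Injective ((ι : (PSpace n k).functionField →+* K).comp
      (algebraMap ((PSpace n k).presheaf.stalk E) (PSpace n k).functionField)) := by
    intro a b hab
    exact (IsFractionRing.injective ((PSpace n k).presheaf.stalk E)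
      (PSpace n k).functionField) (ι.injective hab)
  have hm : ∃ m : ℕ, (m : ℤ) = hypZ n k E ∧ (m = 0 ∧ (∀ l, IsUnit (e l)) ∨
      m = 1 ∧ ∃ l, ¬ IsUnit (e l)) := by
    by_cases hex : ∃ i : Fin (n + 1),
      MvPolynomial.X i ∈ ProjectiveSpectrum.asHomogeneousIdeal E
    · refine ⟨1, ?_, Or.inr ⟨rfl, ?_⟩⟩
      · unfold hypZ
        rw [if_pos hex]
        rfl
      · obtain ⟨j, hj⟩ := hex
        have hij : j ≠ i := by
          rintro rfl
          exact hi hj
        obtain ⟨l, rfl⟩ := Fin.exists_succAbove_eq hij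
        exact ⟨l, fun hu => (heu l).mp hu hj⟩
    · refine ⟨0, ?_, Or.inl ⟨rfl, ?_⟩⟩
      · unfold hypZ
        rw [if_neg hex]
        rfl
      · intro l
        refine (heu l).mpr ?_
        intro hc
        exact hex ⟨_, hc⟩
  obtain ⟨m, hmh, hm⟩ := hm
  obtain ⟨g1, g2⟩ := local_dlog (k := k) hdim ((ι : (PSpace n k).functionField →+* K).comp
      (algebraMap ((PSpace n k).presheaf.stalk E) (PSpace n k).functionField)) hj
      (fun l : Fin n => w (i.succAbove l) / w i) (hai i) e he (hconst E) h2 t ht m hm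
  have hexp : -(- hypZ n k E) = (m : ℤ) := by rw [neg_neg, hmh]
  rw [hδ i, hεw, ← hΩ] at g1 g2
  have hεu : IsUnit ((ε : ℤ) : (PSpace n k).presheaf.stalk E) := by
    rcases hε with rfl | rfl <;> simp
  constructor
  · intro z
    obtain ⟨r, hr⟩ := g1 z
    refine ⟨r * (ε : ℤ), ?_⟩
    unfold stalkForm
    rw [hexp, zpow_natCast]
    refine hr.trans ?_
    rw [smul_smul]
    congr 1
    simp only [toK, RingHom.coe_comp, Function.comp_apply, RingHom.coe_coe, map_mul, map_intCast]
    ring
  · obtain ⟨z, r, hru, hr⟩ := g2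
    refine ⟨z, r * (ε : ℤ), hru.mul hεu, ?_⟩
    unfold stalkForm
    rw [hexp, zpow_natCast]
    refine hr.trans ?_
    rw [smul_smul]
    congr 1
    simp only [toK, RingHom.coe_comp, Function.comp_apply, RingHom.coe_coe, map_mul, map_intCast]
    ring

end ClusterLift
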