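import Mathlib
import Pool.Agent.Helper271.CT.Final
import Pool.Agent.Helper271.CP.Dlog

universe u

open AlgebraicGeometry CategoryTheory

namespace ClusterLift

attribute [local instance] MvPolynomial.gradedAlgebra

section Order

variable {Z : Scheme.{u}} [IsIntegral Z] {K : Type u} [Field K]

theorem toK_injective {E : Z} : Function.Injective (toK : Z.presheaf.stalk E → Z.functionField) :=
  IsFractionRing.injective (Z.presheaf.stalk E) Z.functionField

theorem toK_mul {E : Z} (a b : Z.presheaf.stalk E) : toK (a * b) = toK a * toK b := map_mul _ _ _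
theorem toK_pow {E : Z} (a : Z.presheaf.stalk E) (m : ℕ) : toK (a ^ m) = toK a ^ m :=
  map_pow _ _ _
theorem toK_one {E : Z} : toK (1 : Z.presheaf.stalk E) = 1 := map_one _
theorem toK_ne {E : Z} {a : Z.presheaf.stalk E} (h : a ≠ 0) : toK a ≠ 0 := by
  intro h0
  exact h (toK_injective (h0.trans (map_zero (algebraMap (Z.presheaf.stalk E) Z.functionField)).symm))

/-- order is unique -/
theorem order_unique {ι : Z.functionField ≃+* K} {E : Z} {t : Z.presheaf.stalk E}
    (ht : Irreducible t) {r r' : Z.presheaf.stalk E} (hr : IsUnit r) (hr' : IsUnit r') {m m' : ℤ}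
    (h : ι (toK r) * ι (toK t) ^ m = ι (toK r') * ι (toK t) ^ m') : m = m' := by
  have key : ∀ {r r' : Z.presheaf.stalk E}, IsUnit r → IsUnit r' → ∀ {m m' : ℤ},
      ι (toK r) * ι (toK t) ^ m = ι (toK r') * ι (toK t) ^ m' → m ≤ m' := by
    intro r r' hr hr' m m' h
    by_contra hlt
    push Not at hlt
    obtain ⟨d, hd⟩ := Int.eq_ofNat_of_zero_le (show 0 ≤ m - m' by omega)
    have hd0 : d ≠ 0 := by omega
    have ht0 : ι (toK t) ≠ 0 := by
      intro h0
      exact toK_ne ht.ne_zero (ι.injective (h0.trans (map_zero ι).symm))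
    have e1 : ι (toK r) * ι (toK t) ^ d = ι (toK r') := by
      have hm : m = m' + d := by omega
      rw [hm, zpow_add₀ ht0, zpow_natCast, ← mul_assoc, mul_right_comm] at h
      exact mul_right_cancel₀ (zpow_ne_zero _ ht0) h
    have e2 : r * t ^ d = r' := by
      apply toK_injective
      apply ι.injective
      rw [toK_mul, toK_pow, map_mul, map_pow]
      exact e1
    have : IsUnit (r * t ^ d) := e2 ▸ hr'
    exact ht.not_isUnit ((isUnit_pow_iff hd0).mp (isUnit_of_mul_isUnit_right this))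
  exact le_antisymm (key hr hr' h) (key hr' hr h.symm)

theorem HasOrder.pow {ι : Z.functionField ≃+* K} {E : Z} {f : K} {m : ℤ} (h : HasOrder ι E f m)
    (N : ℕ) : HasOrder ι E (f ^ N) (N * m) := by
  intro t ht
  obtain ⟨r, hr, hf⟩ := h t ht
  refine ⟨r ^ N, hr.pow N, ?_⟩
  rw [hf, mul_pow, toK_pow, map_pow, mul_comm (N : ℤ) m, zpow_mul, zpow_natCast]

/-- in a DVR every nonzero element has an order -/
theorem exists_hasOrder {ι : Z.functionField ≃+* K} {E : Z}
    [IsDiscreteValuationRing (Z.presheaf.stalk E)] {f : K} (hf : f ≠ 0) :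
    ∃ m : ℤ, HasOrder ι E f m := by
  obtain ⟨a, b, hb, hab⟩ := IsFractionRing.div_surjective (A := Z.presheaf.stalk E) (ι.symm f)
  have hfab : f = ι (toK a) / ι (toK b) := by
    rw [← map_div₀]
    change f = ι (algebraMap _ _ a / algebraMap _ _ b)
    rw [hab, RingEquiv.apply_symm_apply]
  have hb0 : b ≠ 0 := nonZeroDivisors.ne_zero hb
  have ha0 : a ≠ 0 := by
    rintro rfl
    apply hf
    rw [hfab]
    have : toK (0 : Z.presheaf.stalk E) = 0 := map_zero _
    rw [this, map_zero, zero_div]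
  obtain ⟨t, ht⟩ := IsDiscreteValuationRing.exists_irreducible (Z.presheaf.stalk E)
  obtain ⟨i, u, hu⟩ := IsDiscreteValuationRing.eq_unit_mul_pow_irreducible ha0 ht
  obtain ⟨j, v, hv⟩ := IsDiscreteValuationRing.eq_unit_mul_pow_irreducible hb0 ht
  refine ⟨(i : ℤ) - j, ?_⟩
  intro t' ht'
  obtain ⟨w, hw⟩ := IsDiscreteValuationRing.associated_of_irreducible _ ht' ht
  -- t' * w = t
  have ht0 : ι (toK t') ≠ 0 := by
    intro h0
    exact toK_ne ht'.ne_zero (ι.injective (h0.trans (map_zero ι).symm))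
  have hu' : ∀ u : (Z.presheaf.stalk E)ˣ, ι (toK ((u : (Z.presheaf.stalk E)))) *
      ι (toK ((u⁻¹ : (Z.presheaf.stalk E)ˣ) : Z.presheaf.stalk E)) = 1 := by
    intro u
    rw [← map_mul, ← toK_mul, Units.mul_inv, toK_one, map_one]
  refine ⟨u * w ^ i * (↑v⁻¹ * (↑w⁻¹) ^ j), ?_, ?_⟩
  · exact (u.isUnit.mul (w.isUnit.pow i)).mul (v⁻¹.isUnit.mul (w⁻¹.isUnit.pow j))
  · rw [hfab, hu, hv, ← hw]
    simp only [toK_mul, toK_pow, map_mul, map_pow]
    rw [zpow_sub₀ ht0, zpow_natCast, zpow_natCast]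
    have hv' := hu' v
    have hw' := hu' w
    have hv0 : ι (toK (v : (Z.presheaf.stalk E))) ≠ 0 := left_ne_zero_of_mul_eq_one hv'
    have hw0 : ι (toK (w : (Z.presheaf.stalk E))) ≠ 0 := left_ne_zero_of_mul_eq_one hw'
    have hv2 : ι (toK ((v⁻¹ : (Z.presheaf.stalk E)ˣ) : Z.presheaf.stalk E)) =
      (ι (toK (v : (Z.presheaf.stalk E))))⁻¹ := eq_inv_of_mul_eq_one_right hv'
    have hw2 : ι (toK ((w⁻¹ : (Z.presheaf.stalk E)ˣ) : Z.presheaf.stalk E)) =
      (ι (toK (w : (Z.presheaf.stalk E))))⁻¹ := eq_inv_of_mul_eq_one_right hw'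
    rw [hv2, hw2]
    simp only [mul_pow, inv_pow]
    field_simp

end Order

theorem crepant_main (p : ℕ) [Fact p.Prime] {k : Type u} [Field k] [CharP k p] [PerfectField k]
    {X : Scheme.{u}} (s : X ⟶ Spec (CommRingCat.of k)) [IsIntegral X] [LocallyOfFiniteType s]
    (hX : ∀ x : X, IsIntegrallyClosed (X.presheaf.stalk x)) (n : ℕ) (B : X → ℚ)
    (hB : ∀ E : X, IsPrimeDivisor E → 0 ≤ B E)
    (h : CrepantBirational n s B (PSpace.toSpec n k) (hyperplanes n k)) :
    LiftsOverW2 p s := by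
  obtain ⟨M, hM⟩ := h
  letI := functionFieldAlgebra s
  obtain ⟨z, a, ω, KX, KP, D, hω, hω0, hKX, hKP, hX', hP⟩ := hM
  have hN : IsLocallyNoetherian X := LocallyOfFiniteType.isLocallyNoetherian s
  haveI hMY := M.isProper
  have hι : ∀ c : k, M.ι' ((functionFieldAlgebra (PSpace.toSpec n k)).algebraMap c) =
      algebraMap k X.functionField c := by
    intro c
    have := algebraMap_compat s (PSpace.toSpec n k) M.π M.π' M.comm M.φ M.φ' M.induces
      M.induces' c
    unfold CommonModel.ι'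
    rw [RingEquiv.trans_apply, this, RingEquiv.symm_apply_apply]
  obtain ⟨x, hx0, hxa, hxt, hΩ⟩ := PSpace_dlog n k M.ι' hι
  set Ω := wedge X.functionField (fun i => (x i)⁻¹ • KaehlerDifferential.D k X.functionField (x i))
    with hΩdef
  obtain ⟨c, hc⟩ := wedge_dlog_of_adjoin x hx0 hxt z
  set g : X.functionField := a * c with hg
  have hωg : ω = g • Ω := by rw [hω, hc, smul_smul]
  have hg0 : g ≠ 0 := by
    intro h0
    apply hω0
    rw [hωg, h0, zero_smul]
  have hΩ0 : Ω ≠ 0 := by
    intro h0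
    apply hω0
    rw [hωg, h0, smul_zero]
  -- the order of `g` on projective space
  have hordP : ∀ E : PSpace n k, IsPrimeDivisor E → HasOrder M.ι' E g (KP E + hypZ n k E) := by
    intro E hE t ht
    obtain ⟨a1, z1, r1, hr1, ha1⟩ := hKP E hE t ht
    obtain ⟨b1, y1, q1, hq1, hb1⟩ := hΩ E hE t ht
    have ht0 : M.ι' (toK t) ≠ 0 := by
      intro h0
      exact toK_ne ht.ne_zero (M.ι'.injective (h0.trans (map_zero M.ι').symm))
    -- stalkForm z1 = r1 t^{-KP} ω = r1 t^{-KP} g Ω and = r' t^h Ω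
    obtain ⟨r', hr'⟩ := b1 z1
    obtain ⟨q', hq'⟩ := a1 y1
    have e1 : M.ι' (toK r1) * M.ι' (toK t) ^ (-KP E) * g =
        M.ι' (toK r') * M.ι' (toK t) ^ (- - hypZ n k E) := by
      have := ha1.symm.trans hr'
      rw [hωg, smul_smul] at this
      exact smul_left_injective _ hΩ0 this
    have e2 : M.ι' (toK q') * M.ι' (toK t) ^ (-KP E) * g =
        M.ι' (toK q1) * M.ι' (toK t) ^ (- - hypZ n k E) := by
      have := hq'.symm.trans hb1
      rw [hωg, smul_smul] at this
      exact smul_left_injective _ hΩ0 this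
    obtain ⟨u1, rfl⟩ := hr1
    obtain ⟨u2, rfl⟩ := hq1
    have hinv : ∀ u : ((PSpace n k).presheaf.stalk E)ˣ,
        M.ι' (toK (u : (PSpace n k).presheaf.stalk E)) *
        M.ι' (toK ((u⁻¹ : ((PSpace n k).presheaf.stalk E)ˣ) : (PSpace n k).presheaf.stalk E)) =
        1 := by
      intro u
      rw [← map_mul, ← toK_mul, Units.mul_inv, toK_one, map_one]
    have hu10 : M.ι' (toK (u1 : (PSpace n k).presheaf.stalk E)) ≠ 0 :=
      left_ne_zero_of_mul_eq_one (hinv u1)
    have hu1i : M.ι' (toK ((u1⁻¹ : ((PSpace n k).presheaf.stalk E)ˣ) :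
        (PSpace n k).presheaf.stalk E)) = (M.ι' (toK (u1 : (PSpace n k).presheaf.stalk E)))⁻¹ :=
      eq_inv_of_mul_eq_one_right (hinv u1)
    have hKt : M.ι' (toK t) ^ (-KP E) ≠ 0 := zpow_ne_zero _ ht0
    have hgf : g = M.ι' (toK (r' * ((u1⁻¹ : ((PSpace n k).presheaf.stalk E)ˣ) :
        (PSpace n k).presheaf.stalk E))) * M.ι' (toK t) ^ (KP E + hypZ n k E) := by
      rw [toK_mul, map_mul, hu1i]
      have hz : M.ι' (toK t) ^ (KP E + hypZ n k E) =
          M.ι' (toK t) ^ (- - hypZ n k E) * (M.ι' (toK t) ^ (-KP E))⁻¹ := by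
        rw [← zpow_neg, ← zpow_add₀ ht0]
        congr 1
        ring
      rw [hz]
      field_simp
      linear_combination e1
    refine ⟨r' * ((u1⁻¹ : ((PSpace n k).presheaf.stalk E)ˣ) :
      (PSpace n k).presheaf.stalk E), ?_, hgf⟩
    refine IsUnit.mul ?_ u1⁻¹.isUnit
    -- r' is a unit: q' * r' = u1 * u2
    have hq : q' * r' = u1 * u2 := by
      apply toK_injective
      apply M.ι'.injective
      rw [toK_mul, toK_mul, map_mul, map_mul]
      have h3 : M.ι' (toK t) ^ (- - hypZ n k E) ≠ 0 := zpow_ne_zero _ ht0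
      have h4 : (M.ι' (toK q') * M.ι' (toK r')) * (M.ι' (toK t) ^ (- - hypZ n k E)) =
          (M.ι' (toK (u1 : (PSpace n k).presheaf.stalk E)) *
            M.ι' (toK (u2 : (PSpace n k).presheaf.stalk E))) *
            (M.ι' (toK t) ^ (- - hypZ n k E)) := by
        calc _ = M.ι' (toK q') * (M.ι' (toK r') * M.ι' (toK t) ^ (- - hypZ n k E)) := by ring
          _ = M.ι' (toK q') * (M.ι' (toK (u1 : (PSpace n k).presheaf.stalk E)) *
            M.ι' (toK t) ^ (-KP E) * g) := by rw [e1]
          _ = M.ι' (toK (u1 : (PSpace n k).presheaf.stalk E)) *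
            (M.ι' (toK q') * M.ι' (toK t) ^ (-KP E) * g) := by ring
          _ = _ := by rw [e2]; ring
      exact mul_right_cancel₀ h3 h4
    exact isUnit_of_mul_isUnit_right (hq ▸ u1.isUnit.mul u2.isUnit)
  -- the order of `g` on `Y`
  obtain ⟨N, hN0, hN1, hN2⟩ := hP
  have hordY : ∀ F : M.Y, IsPrimeDivisor F →
      ∃ m : ℤ, HasOrder M.ιY F (g ^ N) m ∧ (m : ℚ) = N * D F := by
    intro F hF
    refine hN2 F hF (g ^ N) ⟨pow_ne_zero _ hg0, ?_⟩
    intro E hE _
    refine ⟨N * (KP E + hypZ n k E), (hordP E hE).pow N, ?_⟩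
    push_cast
    rw [hypZ_cast]
  -- the order of `g` on `X`
  obtain ⟨N', hN0', hN1', hN2'⟩ := hX'
  have key : ∀ E : X, IsPrimeDivisor E →
      ∃ m : ℤ, HasOrder (RingEquiv.refl X.functionField) E g m ∧ (m : ℚ) = KX E + B E := by
    intro E hE
    haveI := hX E
    haveI : IsNoetherianRing (X.presheaf.stalk E) := inferInstance
    haveI : IsDiscreteValuationRing (X.presheaf.stalk E) :=
      Pool.Agent.Helper271.CT.isDVR_of_dim_one _ hE
    obtain ⟨F, hFE, e, he⟩ := exists_lift_stalk M.π M.φ M.induces E inferInstance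
    have hF : IsPrimeDivisor F := by
      unfold IsPrimeDivisor
      rw [← ringKrullDim_eq_of_ringEquiv e]
      exact hE
    -- transport of orders
    have htr : ∀ {f : X.functionField} {m : ℤ}, HasOrder M.ιY F f m →
        HasOrder (RingEquiv.refl X.functionField) E f m := by
      intro f m hf t ht
      have het : Irreducible (e t) := (MulEquiv.irreducible_iff e).mpr ht
      obtain ⟨r, hr, hfr⟩ := hf (e t) het
      refine ⟨e.symm r, hr.map e.symm, ?_⟩
      have h1 : ∀ r : X.presheaf.stalk E, M.ιY (toK (e r)) = toK r := by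
        intro r
        unfold CommonModel.ιY
        rw [he, RingEquiv.symm_apply_apply]
      have h2 : M.ιY (toK r) = toK (e.symm r) := by
        rw [← h1 (e.symm r), RingEquiv.apply_symm_apply]
      rw [hfr, h1, h2]
      rfl
    obtain ⟨t, ht⟩ := IsDiscreteValuationRing.exists_irreducible (X.presheaf.stalk E)
    have huniq : ∀ {f : X.functionField} {m m' : ℤ},
        HasOrder (RingEquiv.refl X.functionField) E f m →
        HasOrder (RingEquiv.refl X.functionField) E f m' → m = m' := by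
      intro f m m' h1 h2
      obtain ⟨r1, hr1, e1⟩ := h1 t ht
      obtain ⟨r2, hr2, e2⟩ := h2 t ht
      exact order_unique ht hr1 hr2 (e1.symm.trans e2)
    obtain ⟨m, hm⟩ := exists_hasOrder (ι := RingEquiv.refl X.functionField) (E := E) hg0
    refine ⟨m, hm, ?_⟩
    -- D F = m
    obtain ⟨m1, hm1, hm1'⟩ := hordY F hF
    have e1 : (N : ℤ) * m = m1 := huniq (hm.pow N) (htr hm1)
    have hDF : D F = m := by
      have hN0'' : (N : ℚ) ≠ 0 := by exact_mod_cast hN0.ne'
      have : (N : ℚ) * D F = N * m := by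
        rw [← hm1', ← e1]
        push_cast
        ring
      exact mul_left_cancel₀ hN0'' this
    -- D F = KX E + B E
    obtain ⟨f, hf⟩ := hN1' E
    obtain ⟨m2, hm2, hm2'⟩ := hf.2 E hE specializes_rfl
    obtain ⟨m3, hm3, hm3'⟩ := hN2' F hF f (by rw [hFE]; exact hf)
    have e2 : m2 = m3 := huniq hm2 (htr hm3)
    have hN0'' : (N' : ℚ) ≠ 0 := by exact_mod_cast hN0'.ne'
    have : (N' : ℚ) * D F = N' * (KX E + B E) := by
      rw [← hm3', ← e2, hm2']
    rw [← hDF]
    exact mul_left_cancel₀ hN0'' this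
  classical
  let B' : X → ℤ := fun E => if hE : IsPrimeDivisor E then (key E hE).choose - KX E else 0
  have hB' : ∀ E (hE : IsPrimeDivisor E), B' E = (key E hE).choose - KX E := fun E hE =>
    dif_pos hE
  refine Pool.Agent.Helper271.CT.main_theorem p s hX x ⟨hxa, hxt⟩ B' ?_ ?_
  · intro E hE t ht
    have hE' : IsPrimeDivisor E := hE
    obtain ⟨hm, hm'⟩ := (key E hE').choose_spec
    rw [hB' E hE']
    set m := (key E hE').choose with hmdef
    obtain ⟨u, hu, hgu⟩ := hm t ht
    have hgu' : g = toK u * toK t ^ m := hgu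
    have ht0 : toK t ≠ 0 := toK_ne ht.ne_zero
    obtain ⟨a1, z1, r1, hr1, ha1⟩ := hKX E hE' t ht
    have hconv : ∀ (z : Fin n → X.presheaf.stalk E) (r : X.presheaf.stalk E),
        stalkForm k (RingEquiv.refl X.functionField) z =
          ((RingEquiv.refl X.functionField) (toK r) *
            (RingEquiv.refl X.functionField) (toK t) ^ (-KX E)) • ω →
        IsTopForm s x (fun i => toK (z i)) (toK (r * u) * toK t ^ (m - KX E)) := by
      intro z r hz
      have hz' : wedge X.functionField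
          (fun i => KaehlerDifferential.D k X.functionField (toK (z i))) =
          (toK r * toK t ^ (-KX E)) • ω := hz
      change wedge X.functionField
        (fun i => KaehlerDifferential.D k X.functionField (toK (z i))) =
        (toK (r * u) * toK t ^ (m - KX E)) • Ω
      rw [hz', hωg, smul_smul, toK_mul]
      congr 1
      rw [hgu', sub_eq_add_neg, zpow_add₀ ht0]
      ring
    refine ⟨fun z => ?_, ⟨z1, r1 * u, hr1.mul hu, hconv z1 r1 ha1⟩⟩
    obtain ⟨r, hr⟩ := a1 z
    exact ⟨r * u, hconv z r hr⟩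
  · intro E hE
    have hE' : IsPrimeDivisor E := hE
    obtain ⟨hm, hm'⟩ := (key E hE').choose_spec
    rw [hB' E hE']
    have h1 : ((((key E hE').choose - KX E : ℤ)) : ℚ) = B E := by
      push_cast
      rw [hm']
      ring
    have h2 := hB E hE'
    rw [← h1] at h2
    exact_mod_cast h2

end ClusterLift
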